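import Pool.Agent.H963CF.L648.CruxDefs

set_option autoImplicit false

namespace Pool.Agent.H963CF.L648

open Set Topology Filter
open Pool.Agent.H963CF.L739.CT (Ctm HasLog SpanZero ctm_union ctm_component clopen_nhd_component
  cutwire bump ctm_iInter_directed)
open Pool.Agent.H963CF.L739.CG (Good)

theorem isClosed_dis {X K : Type} [TopologicalSpace X] [CompactSpace X] [T2Space X]
    [TopologicalSpace K] [CompactSpace K] [T2Space K] (P P' : Set (K × X)) (hP : IsClosed P)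
    (hP' : IsClosed P') : IsClosed {p : K × K | ∃ x, ((p.1, x) ∈ P ∧ (p.2, x) ∈ P') ∨
      ((p.1, x) ∈ P' ∧ (p.2, x) ∈ P)} := by
  set A : Set ((K × K) × X) := {q | ((q.1.1, q.2) ∈ P ∧ (q.1.2, q.2) ∈ P') ∨
      ((q.1.1, q.2) ∈ P' ∧ (q.1.2, q.2) ∈ P)} with hA
  have c1 : Continuous (fun q : (K × K) × X => (q.1.1, q.2)) :=
    (continuous_fst.comp continuous_fst).prodMk continuous_snd
  have c2 : Continuous (fun q : (K × K) × X => (q.1.2, q.2)) :=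
    (continuous_snd.comp continuous_fst).prodMk continuous_snd
  have hAc : IsClosed A := by
    refine IsClosed.union ?_ ?_
    · exact (hP.preimage c1).inter (hP'.preimage c2)
    · exact (hP'.preimage c1).inter (hP.preimage c2)
  have : {p : K × K | ∃ x, ((p.1, x) ∈ P ∧ (p.2, x) ∈ P') ∨
      ((p.1, x) ∈ P' ∧ (p.2, x) ∈ P)} = Prod.fst '' A := by
    ext p
    constructor
    · rintro ⟨x, hx⟩
      exact ⟨(p, x), hx, rfl⟩
    · rintro ⟨⟨q, x⟩, hx, rfl⟩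
      exact ⟨x, hx⟩
  rw [this]
  exact (hAc.isCompact.image continuous_fst).isClosed

theorem disData_of_confl {X Y K : Type} [TopologicalSpace X] [CompactSpace X] [T2Space X]
    [TopologicalSpace Y] [CompactSpace Y] [T2Space Y] [TopologicalSpace K] [CompactSpace K]
    [T2Space K] (hYg : Good Y) (f : X → Y) (hf : Continuous f)
    (hfc : Confl f) (u : K → Y) (P P' : Set (K × X)) (hP : IsClosed P)
    (hP' : IsClosed P') (hd : Disjoint P P') (hcov : ∀ k x, u k = f x ↔ (k, x) ∈ P ∨ (k, x) ∈ P')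
    {D : Set (K × K)} (hDdef : D = {p | ∃ x, ((p.1, x) ∈ P ∧ (p.2, x) ∈ P') ∨
      ((p.1, x) ∈ P' ∧ (p.2, x) ∈ P)})
    (hprop : ∀ S : Set K, Ctm S → S ≠ univ → Cons D S) : DisData u D := by
  have hmem : ∀ a b, (a, b) ∈ D ↔ ∃ x, ((a, x) ∈ P ∧ (b, x) ∈ P') ∨ ((a, x) ∈ P' ∧ (b, x) ∈ P) := by
    intro a b
    rw [hDdef]
    rfl
  have hPf : ∀ k x, (k, x) ∈ P → u k = f x := fun k x h => (hcov k x).2 (Or.inl h)
  have hPf' : ∀ k x, (k, x) ∈ P' → u k = f x := fun k x h => (hcov k x).2 (Or.inr h)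
  rw [disjoint_left] at hd
  refine ⟨by rw [hDdef]; exact isClosed_dis P P' hP hP', ?_, ?_, ?_, ?_, ?_, hprop⟩
  · rintro ⟨a, b⟩ hab
    rw [hmem] at hab
    obtain ⟨x, ⟨h1, h2⟩ | ⟨h1, h2⟩⟩ := hab
    · exact (hPf _ _ h1).trans (hPf' _ _ h2).symm
    · exact (hPf' _ _ h1).trans (hPf _ _ h2).symm
  · intro k hk
    rw [hmem] at hk
    obtain ⟨x, ⟨h1, h2⟩ | ⟨h1, h2⟩⟩ := hk
    · exact hd h1 h2
    · exact hd h2 h1
  · intro a b hab
    rw [hmem] at hab ⊢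
    obtain ⟨x, ⟨h1, h2⟩ | ⟨h1, h2⟩⟩ := hab
    · exact ⟨x, Or.inr ⟨h2, h1⟩⟩
    · exact ⟨x, Or.inl ⟨h2, h1⟩⟩
  · intro a b c hab hbc h1 h2 h3
    rw [hmem] at h1 h2 h3
    obtain ⟨x, ⟨e1, e2⟩ | ⟨e1, e2⟩⟩ := h3
    · have hb : u b = f x := hab.symm.trans (hPf _ _ e1)
      rcases (hcov b x).1 hb with h | h
      · exact h2 ⟨x, Or.inl ⟨h, e2⟩⟩
      · exact h1 ⟨x, Or.inl ⟨e1, h⟩⟩
    · have hb : u b = f x := hab.symm.trans (hPf' _ _ e1)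
      rcases (hcov b x).1 hb with h | h
      · exact h1 ⟨x, Or.inr ⟨e1, h⟩⟩
      · exact h2 ⟨x, Or.inr ⟨h, e2⟩⟩
  · intro S1 S2 hS1 hS2 hc1 hc2 hn1 hn2 a0 ha0 b0 hb0 hab0 hD0
    set A1 : Set X := Prod.snd '' (P ∩ {p | p.1 ∈ S1}) with hA1
    set A1' : Set X := Prod.snd '' (P' ∩ {p | p.1 ∈ S1}) with hA1'
    set A2 : Set X := Prod.snd '' (P ∩ {p | p.1 ∈ S2}) with hA2
    set A2' : Set X := Prod.snd '' (P' ∩ {p | p.1 ∈ S2}) with hA2'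
    have k1 : IsClosed A1 :=
      ((hP.inter (hS1.preimage continuous_fst)).isCompact.image continuous_snd).isClosed
    have k1' : IsClosed A1' :=
      ((hP'.inter (hS1.preimage continuous_fst)).isCompact.image continuous_snd).isClosed
    have k2 : IsClosed A2 :=
      ((hP.inter (hS2.preimage continuous_fst)).isCompact.image continuous_snd).isClosed
    have k2' : IsClosed A2' :=
      ((hP'.inter (hS2.preimage continuous_fst)).isCompact.image continuous_snd).isClosed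
    have n1 : ∀ x, x ∈ A1 → x ∈ A1' → False := by
      rintro x ⟨⟨s, x1⟩, ⟨h1, h2⟩, rfl⟩ ⟨⟨s', x2⟩, ⟨h3, h4⟩, h5⟩
      simp only at h5
      subst h5
      exact hn1 s h2 s' h4 ((hmem _ _).2 ⟨x2, Or.inl ⟨h1, h3⟩⟩)
    have n2 : ∀ x, x ∈ A2 → x ∈ A2' → False := by
      rintro x ⟨⟨s, x1⟩, ⟨h1, h2⟩, rfl⟩ ⟨⟨s', x2⟩, ⟨h3, h4⟩, h5⟩
      simp only at h5
      subst h5
      exact hn2 s h2 s' h4 ((hmem _ _).2 ⟨x2, Or.inl ⟨h1, h3⟩⟩)
    have m1 : ∀ x, f x ∈ u '' S1 → x ∈ A1 ∨ x ∈ A1' := by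
      rintro x ⟨s, hs, hsx⟩
      rcases (hcov s x).1 hsx with h | h
      · exact Or.inl ⟨(s, x), ⟨h, hs⟩, rfl⟩
      · exact Or.inr ⟨(s, x), ⟨h, hs⟩, rfl⟩
    have m2 : ∀ x, f x ∈ u '' S2 → x ∈ A2 ∨ x ∈ A2' := by
      rintro x ⟨s, hs, hsx⟩
      rcases (hcov s x).1 hsx with h | h
      · exact Or.inl ⟨(s, x), ⟨h, hs⟩, rfl⟩
      · exact Or.inr ⟨(s, x), ⟨h, hs⟩, rfl⟩
    have f1 : ∀ x, x ∈ A1 ∨ x ∈ A1' → f x ∈ u '' S1 := by
      rintro x (⟨⟨s, x1⟩, ⟨h1, h2⟩, rfl⟩ | ⟨⟨s, x1⟩, ⟨h1, h2⟩, rfl⟩)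
      · exact ⟨s, h2, hPf _ _ h1⟩
      · exact ⟨s, h2, hPf' _ _ h1⟩
    have f2 : ∀ x, x ∈ A2 ∨ x ∈ A2' → f x ∈ u '' S2 := by
      rintro x (⟨⟨s, x1⟩, ⟨h1, h2⟩, rfl⟩ | ⟨⟨s, x1⟩, ⟨h1, h2⟩, rfl⟩)
      · exact ⟨s, h2, hPf _ _ h1⟩
      · exact ⟨s, h2, hPf' _ _ h1⟩
    set F : Set X := (A1 ∩ A2') ∪ (A1' ∩ A2) with hF
    set F' : Set X := (A1 ∩ A2) ∪ (A1' ∩ A2') with hF'
    have hFc : IsClosed F := (k1.inter k2').union (k1'.inter k2)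
    have hFc' : IsClosed F' := (k1.inter k2).union (k1'.inter k2')
    have hFF' : Disjoint F F' := by
      rw [disjoint_left]
      rintro x (⟨h1, h2⟩ | ⟨h1, h2⟩) (⟨h3, h4⟩ | ⟨h3, h4⟩)
      · exact n2 x h4 h2
      · exact n1 x h1 h3
      · exact n1 x h3 h1
      · exact n2 x h2 h4
    have hI : Ctm (u '' S1 ∩ u '' S2) := Pool.Agent.H963CF.L739.CG.ctm_inter hYg hc1 hc2
      ⟨u a0, ⟨a0, ha0, rfl⟩, b0, hb0, hab0.symm⟩
    have hempty : ∀ x, x ∉ F := by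
      intro x hx
      have hxI : x ∈ f ⁻¹' (u '' S1 ∩ u '' S2) := by
        rcases hx with ⟨h1, h2⟩ | ⟨h1, h2⟩
        · exact ⟨f1 x (Or.inl h1), f2 x (Or.inr h2)⟩
        · exact ⟨f1 x (Or.inr h1), f2 x (Or.inl h2)⟩
      have hcomp := hfc _ hI x hxI
      have hsub : connectedComponentIn (f ⁻¹' (u '' S1 ∩ u '' S2)) x ⊆ F := by
        apply Pool.Agent.H963CF.L739.CT.sub_of_split hFc hFc' hFF' isPreconnected_connectedComponentIn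
        · intro z hz
          have hz' : z ∈ f ⁻¹' (u '' S1 ∩ u '' S2) := connectedComponentIn_subset _ _ hz
          rcases m1 z hz'.1 with h | h <;> rcases m2 z hz'.2 with h' | h'
          · exact Or.inr (Or.inl ⟨h, h'⟩)
          · exact Or.inl (Or.inl ⟨h, h'⟩)
          · exact Or.inl (Or.inr ⟨h, h'⟩)
          · exact Or.inr (Or.inr ⟨h, h'⟩)
        · exact ⟨x, mem_connectedComponentIn hxI, hx⟩
      have hu0 : u a0 ∈ f '' connectedComponentIn (f ⁻¹' (u '' S1 ∩ u '' S2)) x := by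
        rw [hcomp]
        exact ⟨⟨a0, ha0, rfl⟩, b0, hb0, hab0.symm⟩
      obtain ⟨z, hz, hza⟩ := hu0
      have hzb : u b0 = f z := hab0.symm.trans hza.symm
      rcases hsub hz with ⟨h1, h2⟩ | ⟨h1, h2⟩
      · have ha : (a0, z) ∈ P := by
          rcases (hcov a0 z).1 hza.symm with h | h
          · exact h
          · exact absurd (⟨(a0, z), ⟨h, ha0⟩, rfl⟩ : z ∈ A1') (fun h' => n1 z h1 h')
        have hb : (b0, z) ∈ P' := by
          rcases (hcov b0 z).1 hzb with h | h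
          · exact absurd (⟨(b0, z), ⟨h, hb0⟩, rfl⟩ : z ∈ A2) (fun h' => n2 z h' h2)
          · exact h
        exact hD0 ((hmem _ _).2 ⟨z, Or.inl ⟨ha, hb⟩⟩)
      · have ha : (a0, z) ∈ P' := by
          rcases (hcov a0 z).1 hza.symm with h | h
          · exact absurd (⟨(a0, z), ⟨h, ha0⟩, rfl⟩ : z ∈ A1) (fun h' => n1 z h' h1)
          · exact h
        have hb : (b0, z) ∈ P := by
          rcases (hcov b0 z).1 hzb with h | h
          · exact h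
          · exact absurd (⟨(b0, z), ⟨h, hb0⟩, rfl⟩ : z ∈ A2') (fun h' => n2 z h2 h')
        exact hD0 ((hmem _ _).2 ⟨z, Or.inr ⟨ha, hb⟩⟩)
    intro c hc d hd' hcd
    rcases hc with hc | hc <;> rcases hd' with hd' | hd'
    · exact hn1 c hc d hd' hcd
    · obtain ⟨x, ⟨h1, h2⟩ | ⟨h1, h2⟩⟩ := (hmem _ _).1 hcd
      · exact hempty x (Or.inl ⟨⟨(c, x), ⟨h1, hc⟩, rfl⟩, ⟨(d, x), ⟨h2, hd'⟩, rfl⟩⟩)
      · exact hempty x (Or.inr ⟨⟨(c, x), ⟨h1, hc⟩, rfl⟩, ⟨(d, x), ⟨h2, hd'⟩, rfl⟩⟩)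
    · obtain ⟨x, ⟨h1, h2⟩ | ⟨h1, h2⟩⟩ := (hmem _ _).1 hcd
      · exact hempty x (Or.inr ⟨⟨(d, x), ⟨h2, hd'⟩, rfl⟩, ⟨(c, x), ⟨h1, hc⟩, rfl⟩⟩)
      · exact hempty x (Or.inl ⟨⟨(d, x), ⟨h2, hd'⟩, rfl⟩, ⟨(c, x), ⟨h1, hc⟩, rfl⟩⟩)
    · exact hn2 c hc d hd' hcd

end Pool.Agent.H963CF.L648
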