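import Pool.Agent.H963CF.L648.CruxDefs

set_option autoImplicit false

namespace Pool.Agent.H963CF.L648

open Set Topology Filter
open Pool.Agent.H963CF.L739.CT (Ctm HasLog SpanZero ctm_union ctm_component clopen_nhd_component cutwire bump ctm_iInter_directed)
open Pool.Agent.H963CF.L739.CG (Good)

theorem snoc_off {K : Type*} {D : Set (K × K)} {m : ℕ} (t : Fin m → K) (b : K)
    (ht : ∀ i j, i ≠ j → (t i, t j) ∈ D) (hb : ∀ j, (t j, b) ∈ D) (hb' : ∀ j, (b, t j) ∈ D) :
    ∀ i j : Fin (m + 1), i ≠ j →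
      (Fin.snoc (α := fun _ => K) t b i, Fin.snoc (α := fun _ => K) t b j) ∈ D := by
  intro i j
  induction i using Fin.lastCases with
  | last =>
    induction j using Fin.lastCases with
    | last => intro h; exact absurd rfl h
    | cast j =>
      intro _
      rw [Fin.snoc_last, Fin.snoc_castSucc]
      exact hb' j
  | cast i =>
    induction j using Fin.lastCases with
    | last =>
      intro _
      rw [Fin.snoc_last, Fin.snoc_castSucc]
      exact hb i
    | cast j =>
      intro h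
      rw [Fin.snoc_castSucc, Fin.snoc_castSucc]
      exact ht i j (fun h' => h (by rw [h']))

/-- TARGET: over a nonempty open set the agreement relation is closed -/
theorem exists_good_open {K Y : Type*} [TopologicalSpace K] [CompactSpace K] [T2Space K]
    [Nonempty K] [TopologicalSpace Y] [CompactSpace Y] [T2Space Y]
    (u : K → Y) (hu : Continuous u) {D : Set (K × K)} (hD : DisData u D) :
    ∃ (G : Set Y) (R : Set (K × K)), IsOpen G ∧ (∃ k, u k ∈ G) ∧ IsClosed R ∧
      ∀ a b, u a ∈ G → u a = u b → ((a, b) ∈ R ↔ (a, b) ∉ D) := by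
  classical
  have hTc : ∀ m, IsClosed {t : Fin m → K | ∀ i j, i ≠ j → (t i, t j) ∈ D} := by
    intro m
    have : {t : Fin m → K | ∀ i j, i ≠ j → (t i, t j) ∈ D} =
        ⋂ i, ⋂ j, ⋂ (_ : i ≠ j), {t : Fin m → K | (t i, t j) ∈ D} := by
      ext t
      simp only [mem_iInter]
      rfl
    rw [this]
    exact isClosed_iInter fun i => isClosed_iInter fun j => isClosed_iInter fun _ =>
      hD.closed.preimage ((continuous_apply i).prodMk (continuous_apply j))
  have hsymm' : ∀ a b, (a, b) ∉ D → (b, a) ∉ D := fun a b h h' => h (hD.symm b a h')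
  -- (1)
  have h1 : ∀ k0 : K, ∃ N, ∀ t : Fin N → K, (∀ i j, i ≠ j → (t i, t j) ∈ D) →
      (∀ i, u (t i) = u k0) → False := by
    intro k0
    have hF : IsCompact (u ⁻¹' {u k0}) := (isClosed_singleton.preimage hu).isCompact
    obtain ⟨s, hs, hcov⟩ := hF.elim_nhds_subcover (fun a => {b | (a, b) ∉ D}) (fun a _ => by
      have hc : IsClosed {b : K | (a, b) ∈ D} :=
        hD.closed.preimage (continuous_const.prodMk continuous_id)
      exact hc.isOpen_compl.mem_nhds (hD.refl a))
    refine ⟨s.card + 1, fun t ht hover => ?_⟩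
    have hmem : ∀ i, ∃ a ∈ s, (a, t i) ∉ D := by
      intro i
      have := hcov (show t i ∈ u ⁻¹' {u k0} from hover i)
      simp only [mem_iUnion] at this
      obtain ⟨a, ha, h⟩ := this
      exact ⟨a, ha, h⟩
    choose f hf1 hf2 using hmem
    obtain ⟨i, _, j, _, hij, hfij⟩ := Finset.exists_ne_map_eq_of_card_lt_of_maps_to
      (s := (Finset.univ : Finset (Fin (s.card + 1)))) (t := s) (by simp) (f := f)
      (fun i _ => hf1 i)
    have e1 : u (f i) = u k0 := hs (f i) (hf1 i)
    refine hD.trans (t i) (f i) (t j) ?_ ?_ ?_ ?_ (ht i j hij)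
    · rw [hover i, e1]
    · rw [hover j, e1]
    · exact hsymm' _ _ (hf2 i)
    · rw [hfij]
      exact hf2 j
  -- (2)
  obtain ⟨m, hm0, hPm, k1, hk1⟩ : ∃ m : ℕ, 0 < m ∧
      (∀ k, ∃ t : Fin m → K, (∀ i j, i ≠ j → (t i, t j) ∈ D) ∧ ∀ i, u (t i) = u k) ∧
      ∃ k1, ¬ ∃ t : Fin (m + 1) → K, (∀ i j, i ≠ j → (t i, t j) ∈ D) ∧ ∀ i, u (t i) = u k1 := by
    have hex : ∃ m : ℕ, ¬ ∀ k, ∃ t : Fin m → K, (∀ i j, i ≠ j → (t i, t j) ∈ D) ∧
        ∀ i, u (t i) = u k := by
      obtain ⟨k0⟩ := (inferInstance : Nonempty K)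
      obtain ⟨N, hN⟩ := h1 k0
      refine ⟨N, fun h => ?_⟩
      obtain ⟨t, ht1, ht2⟩ := h k0
      exact hN t ht1 ht2
    have hspec := Nat.find_spec hex
    have hmin := fun k => Nat.find_min hex (m := k)
    have h0 : Nat.find hex ≠ 0 := by
      intro h
      rw [h] at hspec
      exact hspec fun k => ⟨fun i => k, fun i => i.elim0, fun i => i.elim0⟩
    have h1' : Nat.find hex ≠ 1 := by
      intro h
      rw [h] at hspec
      exact hspec fun k => ⟨fun i => k, fun i j hij => absurd (Subsingleton.elim i j) hij,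
        fun i => rfl⟩
    obtain ⟨m, hm⟩ : ∃ m, Nat.find hex = m + 1 := ⟨Nat.find hex - 1, by omega⟩
    rw [hm] at hspec
    refine ⟨m, by omega, ?_, ?_⟩
    · have := hmin m (by omega)
      exact not_not.1 this
    · push Not at hspec
      obtain ⟨k, hk⟩ := hspec
      refine ⟨k, ?_⟩
      rintro ⟨t, ht1, ht2⟩
      obtain ⟨i, hi⟩ := hk t ht1
      exact hi (ht2 i)
  -- (3)
  let G : Set Y := {y | ¬ ∃ t : Fin (m + 1) → K, (∀ i j, i ≠ j → (t i, t j) ∈ D) ∧
    ∀ i, u (t i) = y}
  have hGo : IsOpen G := by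
    rw [← isClosed_compl_iff]
    have : Gᶜ = (fun t : Fin (m + 1) → K => u (t 0)) ''
        {t : Fin (m + 1) → K | ∀ i j, i ≠ j → (t i, t j) ∈ D} := by
      ext y
      constructor
      · intro hy
        have hy' : ∃ t : Fin (m + 1) → K, (∀ i j, i ≠ j → (t i, t j) ∈ D) ∧
          ∀ i, u (t i) = y := not_not.1 hy
        obtain ⟨t, ht1, ht2⟩ := hy'
        exact ⟨t, ht1, ht2 0⟩
      · rintro ⟨t, ht, rfl⟩ hy
        refine hy ⟨t, ht, fun i => ?_⟩
        by_cases hi : i = 0
        · rw [hi]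
        · exact hD.fib _ (ht i 0 hi)
    rw [this]
    exact ((hTc (m + 1)).isCompact.image (hu.comp (continuous_apply 0))).isClosed
  -- (4)
  let R : Set (K × K) := {p | u p.1 = u p.2 ∧ ∃ t : Fin m → K, (∀ i j, i ≠ j → (t i, t j) ∈ D) ∧
    ∃ i : Fin m, u (t i) = u p.1 ∧ ∀ j, j ≠ i → (p.1, t j) ∈ D ∧ (p.2, t j) ∈ D}
  have hRc : IsClosed R := by
    have hRe : R = ⋃ i : Fin m, Prod.fst '' {q : (K × K) × (Fin m → K) | u q.1.1 = u q.1.2 ∧
        (∀ i j, i ≠ j → (q.2 i, q.2 j) ∈ D) ∧ u (q.2 i) = u q.1.1 ∧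
        ∀ j, j ≠ i → (q.1.1, q.2 j) ∈ D ∧ (q.1.2, q.2 j) ∈ D} := by
      ext p
      simp only [mem_iUnion]
      constructor
      · rintro ⟨h2, t, ht, i, hi, hj⟩
        exact ⟨i, ⟨p, t⟩, ⟨h2, ht, hi, hj⟩, rfl⟩
      · rintro ⟨i, ⟨q, t⟩, ⟨h2, ht, hi, hj⟩, rfl⟩
        exact ⟨h2, t, ht, i, hi, hj⟩
    rw [hRe]
    refine isClosed_iUnion_of_finite fun i => ?_
    refine (IsCompact.image (IsClosed.isCompact ?_) continuous_fst).isClosed
    have c1 : Continuous fun q : (K × K) × (Fin m → K) => q.1.1 := continuous_fst.comp continuous_fst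
    have c2 : Continuous fun q : (K × K) × (Fin m → K) => q.1.2 := continuous_snd.comp continuous_fst
    have c3 : ∀ j : Fin m, Continuous fun q : (K × K) × (Fin m → K) => q.2 j :=
      fun j => (continuous_apply j).comp continuous_snd
    refine IsClosed.inter (isClosed_eq (hu.comp c1) (hu.comp c2)) ?_
    refine IsClosed.inter ((hTc m).preimage continuous_snd) ?_
    refine IsClosed.inter (isClosed_eq (hu.comp (c3 i)) (hu.comp c1)) ?_
    have : {q : (K × K) × (Fin m → K) | ∀ j, j ≠ i → (q.1.1, q.2 j) ∈ D ∧ (q.1.2, q.2 j) ∈ D}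
        = ⋂ j, ⋂ (_ : j ≠ i), ({q : (K × K) × (Fin m → K) | (q.1.1, q.2 j) ∈ D} ∩
          {q : (K × K) × (Fin m → K) | (q.1.2, q.2 j) ∈ D}) := by
      ext q
      simp only [mem_iInter]
      rfl
    change IsClosed {q : (K × K) × (Fin m → K) | ∀ j, j ≠ i → (q.1.1, q.2 j) ∈ D ∧ (q.1.2, q.2 j) ∈ D}
    rw [this]
    exact isClosed_iInter fun j => isClosed_iInter fun _ =>
      (hD.closed.preimage (c1.prodMk (c3 j))).inter (hD.closed.preimage (c2.prodMk (c3 j)))
  refine ⟨G, R, hGo, ⟨k1, hk1⟩, hRc, ?_⟩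
  intro a b hG hab
  constructor
  · rintro ⟨_, t, ht, i, hi, hj⟩ hDab
    -- the tuple with `t i` replaced by `a` and `b` added
    refine hG ⟨Fin.snoc (α := fun _ => K) (Function.update t i a) b, ?_, ?_⟩
    · have hupd : ∀ j j' : Fin m, j ≠ j' → (Function.update t i a j, Function.update t i a j') ∈ D := by
        intro j j' hne
        by_cases h2 : j = i
        · rw [h2, Function.update_self, Function.update_of_ne (by rw [← h2]; exact hne.symm)]
          exact (hj j' (by rw [← h2]; exact hne.symm)).1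
        · by_cases h3 : j' = i
          · rw [h3, Function.update_self, Function.update_of_ne h2]
            exact hD.symm _ _ (hj j h2).1
          · rw [Function.update_of_ne h2, Function.update_of_ne h3]
            exact ht j j' hne
      have hb : ∀ j : Fin m, (Function.update t i a j, b) ∈ D := by
        intro j
        by_cases h2 : j = i
        · rw [h2, Function.update_self]
          exact hDab
        · rw [Function.update_of_ne h2]
          exact hD.symm _ _ (hj j h2).2
      exact snoc_off _ _ hupd hb (fun j => hD.symm _ _ (hb j))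
    · intro j
      refine Fin.lastCases ?_ (fun j => ?_) j
      · rw [Fin.snoc_last, hab]
      · rw [Fin.snoc_castSucc]
        by_cases h2 : j = i
        · rw [h2, Function.update_self]
        · rw [Function.update_of_ne h2]
          exact (hD.fib _ (hj j h2).1).symm
  · intro hnD
    obtain ⟨t, ht1, ht2⟩ := hPm a
    obtain ⟨i, hi⟩ : ∃ i, (a, t i) ∉ D := by
      by_contra hcon
      push Not at hcon
      refine hG ⟨Fin.snoc (α := fun _ => K) t a, ?_, ?_⟩
      · exact snoc_off _ _ ht1 (fun j => hD.symm _ _ (hcon j)) hcon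
      · intro j
        refine Fin.lastCases ?_ (fun j => ?_) j
        · rw [Fin.snoc_last]
        · rw [Fin.snoc_castSucc]
          exact ht2 j
    refine ⟨hab, t, ht1, i, ht2 i, fun j hji => ⟨?_, ?_⟩⟩
    · by_contra hcon
      -- `(t i, a)`, `(a, t j)` not in `D`
      exact hD.trans (t i) a (t j) (ht2 i) (ht2 j).symm (hsymm' _ _ hi) hcon (ht1 i j hji.symm)
    · by_contra hcon
      have hbi : (b, t i) ∉ D := hD.trans b a (t i) hab.symm (ht2 i).symm (hsymm' _ _ hnD) hi
      exact hD.trans (t i) b (t j) ((ht2 i).trans hab) (by rw [← hab]; exact (ht2 j).symm)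
        (hsymm' _ _ hbi) hcon (ht1 i j hji.symm)

end Pool.Agent.H963CF.L648
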