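import Pool.Agent.H963CF.L648.CruxDefs

set_option autoImplicit false

namespace Pool.Agent.H963CF.L648

open Set Topology Filter
open Pool.Agent.H963CF.L739.CT (Ctm HasLog SpanZero ctm_union ctm_component clopen_nhd_component cutwire bump ctm_iInter_directed)
open Pool.Agent.H963CF.L739.CG (Good)

/-- TARGET: relation version of rigidity -/
theorem rigid_relation {Y K : Type} [TopologicalSpace Y] [CompactSpace Y] [T2Space Y]
    [TopologicalSpace K] [CompactSpace K] [T2Space K] [ConnectedSpace K] (hY : Rigid Y)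
    (u : K → Y) (hu : Continuous u) (R : Set (K × K)) (hR : IsClosed R)
    (hRu : ∀ p ∈ R, u p.1 = u p.2) (hRo : IsClosed {p : K × K | u p.1 = u p.2 ∧ p ∉ R})
    (hrefl : ∀ k, (k, k) ∈ R) (hsymm : ∀ a b, (a, b) ∈ R → (b, a) ∈ R)
    (htrans : ∀ a b c, (a, b) ∈ R → (b, c) ∈ R → (a, c) ∈ R) (a b : K) (hab : u a = u b) :
    (a, b) ∈ R := by
  let s : Setoid K := ⟨fun a b => (a, b) ∈ R, ⟨hrefl, fun {a b} h => hsymm a b h,
    fun {a b c} h1 h2 => htrans a b c h1 h2⟩⟩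
  let π : K → Quotient s := Quotient.mk s
  have hquot : IsQuotientMap π := isQuotientMap_quotient_mk'
  have hπc : Continuous π := hquot.continuous
  have hπs : Function.Surjective π := hquot.surjective
  have hπ_iff : ∀ a b, π a = π b ↔ (a, b) ∈ R := fun a b => Quotient.eq (r := s)
  have hpre : ∀ C : Set K, π ⁻¹' (π '' C) = Prod.snd '' (R ∩ C ×ˢ univ) := by
    intro C
    ext x
    constructor
    · rintro ⟨c, hc, hcx⟩
      exact ⟨(c, x), ⟨(hπ_iff c x).1 hcx, hc, mem_univ _⟩, rfl⟩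
    · rintro ⟨⟨c, y⟩, ⟨h1, h2, -⟩, rfl⟩
      exact ⟨c, h2, (hπ_iff c y).2 h1⟩
  have hclosed : ∀ C : Set K, IsClosed C → IsClosed (π '' C) := by
    intro C hC
    rw [← hquot.isClosed_preimage, hpre]
    exact ((hR.inter (hC.prod isClosed_univ)).isCompact.image continuous_snd).isClosed
  have hcl : ∀ a, IsClosed {c | (a, c) ∈ R} := fun a =>
    hR.preimage (by fun_prop : Continuous fun c : K => (a, c))
  have hmemU : ∀ (U : Set K) (a : K), {c | (a, c) ∈ R} ⊆ U → π a ∈ (π '' Uᶜ)ᶜ := by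
    rintro U a haU ⟨c, hc, hca⟩
    exact hc (haU ((hπ_iff a c).1 hca.symm))
  have hmemU' : ∀ (U : Set K) (c : K), π c ∈ (π '' Uᶜ)ᶜ → c ∈ U := by
    intro U c hc
    by_contra h
    exact hc ⟨c, h, rfl⟩
  have hT2 : T2Space (Quotient s) := by
    refine ⟨fun p q hpq => ?_⟩
    obtain ⟨a, rfl⟩ := hπs p
    obtain ⟨b, rfl⟩ := hπs q
    have hdisj : Disjoint {c | (a, c) ∈ R} {c | (b, c) ∈ R} := by
      rw [Set.disjoint_left]
      intro c hc1 hc2
      exact hpq ((hπ_iff a b).2 (htrans a c b hc1 (hsymm _ _ hc2)))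
    obtain ⟨U, V, hU, hV, haU, hbV, hUV⟩ := normal_separation (hcl a) (hcl b) hdisj
    refine ⟨(π '' Uᶜ)ᶜ, (π '' Vᶜ)ᶜ, (hclosed _ hU.isClosed_compl).isOpen_compl,
      (hclosed _ hV.isClosed_compl).isOpen_compl, hmemU U a haU, hmemU V b hbV, ?_⟩
    rw [Set.disjoint_left]
    intro q hq1 hq2
    obtain ⟨c, rfl⟩ := hπs q
    exact Set.disjoint_left.1 hUV (hmemU' U c hq1) (hmemU' V c hq2)
  let ub : Quotient s → Y := Quotient.lift u (fun a b h => hRu (a, b) h)
  have hubc : Continuous ub := hu.quotient_lift (fun a b h => hRu (a, b) h)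
  have hub : ∀ k, ub (π k) = u k := fun k => rfl
  have hcomp : CompactSpace (Quotient s) := inferInstance
  have hconn : ConnectedSpace (Quotient s) := by
    have h1 : PreconnectedSpace (Quotient s) := by
      constructor
      have h2 : IsPreconnected (π '' univ) := isPreconnected_univ.image π hπc.continuousOn
      rwa [image_univ, hπs.range_eq] at h2
    exact { toPreconnectedSpace := h1, toNonempty := ⟨π a⟩ }
  have hloc : LocInj ub := by
    intro q
    obtain ⟨k, rfl⟩ := hπs q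
    have hkc : IsCompact {c | (k, c) ∈ R} := (hcl k).isCompact
    have hsub : {c | (k, c) ∈ R} ×ˢ {c | (k, c) ∈ R} ⊆ {p : K × K | u p.1 = u p.2 ∧ p ∉ R}ᶜ := by
      rintro ⟨c, d⟩ ⟨hc, hd⟩ ⟨-, hn⟩
      exact hn (htrans c k d (hsymm _ _ hc) hd)
    obtain ⟨U, V, hU, hV, hkU, hkV, hUV⟩ := generalized_tube_lemma hkc hkc hRo.isOpen_compl hsub
    have hW : IsOpen (U ∩ V) := hU.inter hV
    have hkW : {c | (k, c) ∈ R} ⊆ U ∩ V := subset_inter hkU hkV
    refine ⟨(π '' (U ∩ V)ᶜ)ᶜ, (hclosed _ hW.isClosed_compl).isOpen_compl.mem_nhds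
      (hmemU _ k hkW), ?_⟩
    intro q1 h1 q2 h2 h12
    obtain ⟨c, rfl⟩ := hπs q1
    obtain ⟨d, rfl⟩ := hπs q2
    have hc := hmemU' _ c h1
    have hd := hmemU' _ d h2
    have hcd : (c, d) ∈ ({p : K × K | u p.1 = u p.2 ∧ p ∉ R}ᶜ : Set (K × K)) :=
      hUV ⟨hc.1, hd.2⟩
    rw [hπ_iff]
    by_contra hn
    exact hcd ⟨h12, hn⟩
  have hinj := hY (Quotient s) ub hubc hloc
  exact (hπ_iff a b).1 (hinj hab)

end Pool.Agent.H963CF.L648
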