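import Pool.Agent.H963CF.L648.Defs

set_option autoImplicit false

namespace Pool.Agent.H963CF.L648

open Set Topology Filter
open Pool.Agent.H963CF.L739.CT (Ctm HasLog SpanZero)
open Pool.Agent.H963CF.L739.CG (Good)

/-- no pair of `D` inside `S` -/
def Cons {K : Type*} (D : Set (K × K)) (S : Set K) : Prop := ∀ a ∈ S, ∀ b ∈ S, (a, b) ∉ D

/-- abstract disagreement relation over the fibres of `u` -/
structure DisData {K Y : Type*} [TopologicalSpace K] [TopologicalSpace Y] (u : K → Y)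
    (D : Set (K × K)) : Prop where
  closed : IsClosed D
  fib : ∀ p ∈ D, u p.1 = u p.2
  refl : ∀ k, (k, k) ∉ D
  symm : ∀ a b, (a, b) ∈ D → (b, a) ∈ D
  trans : ∀ a b c, u a = u b → u b = u c → (a, b) ∉ D → (b, c) ∉ D → (a, c) ∉ D
  merge : ∀ S1 S2 : Set K, IsClosed S1 → IsClosed S2 → Ctm (u '' S1) → Ctm (u '' S2) →
    Cons D S1 → Cons D S2 → ∀ a ∈ S1, ∀ b ∈ S2, u a = u b → (a, b) ∉ D → Cons D (S1 ∪ S2)
  prop : ∀ S : Set K, Ctm S → S ≠ univ → Cons D S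

/-- the relation over a closed set S -/
structure NiceOn {K Y : Type*} [TopologicalSpace K] (u : K → Y) (D : Set (K × K)) (Z S : Set Y)
    (R : Set (K × K)) : Prop where
  closed : IsClosed R
  fib : ∀ p ∈ R, u p.1 = u p.2 ∧ u p.1 ∈ S ∧ p ∉ D
  co : IsClosed {p : K × K | u p.1 = u p.2 ∧ u p.1 ∈ S ∧ p ∉ R}
  refl : ∀ k, u k ∈ S → (k, k) ∈ R
  symm : ∀ a b, (a, b) ∈ R → (b, a) ∈ R
  trans : ∀ a b c, (a, b) ∈ R → (b, c) ∈ R → (a, c) ∈ R
  agr : ∀ a b, u a = u b → u a ∈ S → u a ∈ Z → (a, b) ∉ D → (a, b) ∈ R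

theorem NiceOn.mono {K Y : Type*} [TopologicalSpace K] [TopologicalSpace Y] {u : K → Y}
    (hu : Continuous u) {D : Set (K × K)} {Z S S' : Set Y} {R : Set (K × K)}
    (h : NiceOn u D Z S R) (hS' : IsClosed S') (hSS : S' ⊆ S) :
    NiceOn u D Z S' (R ∩ {p | u p.1 ∈ S'}) := by
  have hc : IsClosed {p : K × K | u p.1 ∈ S'} := hS'.preimage (hu.comp continuous_fst)
  refine ⟨h.closed.inter hc, ?_, ?_, ?_, ?_, ?_, ?_⟩
  · rintro p ⟨hp, hpS⟩
    exact ⟨(h.fib p hp).1, hpS, (h.fib p hp).2.2⟩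
  · have : {p : K × K | u p.1 = u p.2 ∧ u p.1 ∈ S' ∧ p ∉ R ∩ {p | u p.1 ∈ S'}} =
        {p : K × K | u p.1 = u p.2 ∧ u p.1 ∈ S ∧ p ∉ R} ∩ {p | u p.1 ∈ S'} := by
      ext p
      constructor
      · rintro ⟨h1, h2, h3⟩
        exact ⟨⟨h1, hSS h2, fun h => h3 ⟨h, h2⟩⟩, h2⟩
      · rintro ⟨⟨h1, h2, h3⟩, h4⟩
        exact ⟨h1, h4, fun h => h3 h.1⟩
    rw [this]
    exact h.co.inter hc
  · intro k hk
    exact ⟨h.refl k (hSS hk), hk⟩
  · rintro a b ⟨hab, hS⟩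
    have := (h.fib _ hab).1
    exact ⟨h.symm a b hab, by simpa [← this] using hS⟩
  · rintro a b c ⟨hab, hS⟩ ⟨hbc, -⟩
    exact ⟨h.trans a b c hab hbc, hS⟩
  · intro a b hab hS hZ hD
    exact ⟨h.agr a b hab (hSS hS) hZ hD, hS⟩

theorem NiceOn.union {K Y : Type*} [TopologicalSpace K] [TopologicalSpace Y] {u : K → Y}
    {D : Set (K × K)} {Z S S' : Set Y} {R R' : Set (K × K)}
    (h : NiceOn u D Z S R) (h' : NiceOn u D Z S' R') (hd : Disjoint S S') :
    NiceOn u D Z (S ∪ S') (R ∪ R') := by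
  rw [disjoint_left] at hd
  refine ⟨h.closed.union h'.closed, ?_, ?_, ?_, ?_, ?_, ?_⟩
  · rintro p (hp | hp)
    · exact ⟨(h.fib p hp).1, Or.inl (h.fib p hp).2.1, (h.fib p hp).2.2⟩
    · exact ⟨(h'.fib p hp).1, Or.inr (h'.fib p hp).2.1, (h'.fib p hp).2.2⟩
  · have : {p : K × K | u p.1 = u p.2 ∧ u p.1 ∈ S ∪ S' ∧ p ∉ R ∪ R'} =
        {p : K × K | u p.1 = u p.2 ∧ u p.1 ∈ S ∧ p ∉ R} ∪
        {p : K × K | u p.1 = u p.2 ∧ u p.1 ∈ S' ∧ p ∉ R'} := by
      ext p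
      constructor
      · rintro ⟨h1, h2 | h2, h3⟩
        · exact Or.inl ⟨h1, h2, fun h => h3 (Or.inl h)⟩
        · exact Or.inr ⟨h1, h2, fun h => h3 (Or.inr h)⟩
      · rintro (⟨h1, h2, h3⟩ | ⟨h1, h2, h3⟩)
        · exact ⟨h1, Or.inl h2, by
            rintro (hp | hp)
            · exact h3 hp
            · exact hd h2 (h'.fib p hp).2.1⟩
        · exact ⟨h1, Or.inr h2, by
            rintro (hp | hp)
            · exact hd (h.fib p hp).2.1 h2
            · exact h3 hp⟩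
    rw [this]
    exact h.co.union h'.co
  · rintro k (hk | hk)
    · exact Or.inl (h.refl k hk)
    · exact Or.inr (h'.refl k hk)
  · rintro a b (hab | hab)
    · exact Or.inl (h.symm a b hab)
    · exact Or.inr (h'.symm a b hab)
  · rintro a b c (hab | hab) (hbc | hbc)
    · exact Or.inl (h.trans a b c hab hbc)
    · exfalso
      have h1 := h.fib _ hab
      have h2 := h'.fib _ hbc
      simp only at h1 h2
      exact hd h1.2.1 (by rw [h1.1]; exact h2.2.1)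
    · exfalso
      have h1 := h'.fib _ hab
      have h2 := h.fib _ hbc
      simp only at h1 h2
      exact hd h2.2.1 (by rw [← h1.1]; exact h1.2.1)
    · exact Or.inr (h'.trans a b c hab hbc)
  · rintro a b hab (hS | hS) hZ hD
    · exact Or.inl (h.agr a b hab hS hZ hD)
    · exact Or.inr (h'.agr a b hab hS hZ hD)

end Pool.Agent.H963CF.L648
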