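import Pool.Agent.H963CF.L648.D0

set_option autoImplicit false

namespace Pool.Agent.H963CF.L648

open Set Topology Filter
open Pool.Agent.H963CF.L739.CT (Ctm HasLog SpanZero ctm_union ctm_component clopen_nhd_component cutwire bump ctm_iInter_directed const_of_int circle_exp_eq_one circle_exp_int log_unique)
open Pool.Agent.H963CF.L739.CG (Good)

theorem fib_comp {K Y : Type*} [TopologicalSpace K] [CompactSpace K] [T2Space K]
    [TopologicalSpace Y] [CompactSpace Y] [T2Space Y]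
    (u : K → Y) (hu : Continuous u) (hcl : IsClosed (Off u))
    (hnf : ∀ C ⊆ Off u, Ctm C → u '' (Prod.fst '' C) ≠ univ)
    {a b : K} (hab : u a = u b) (hne : a ≠ b) :
    Ctm (u '' (Prod.fst '' connectedComponentIn (Off u) (a, b))) ∧
    u a ∈ u '' (Prod.fst '' connectedComponentIn (Off u) (a, b)) ∧
    u '' (Prod.fst '' connectedComponentIn (Off u) (a, b)) ≠ univ := by
  have hp : (a, b) ∈ Off u := ⟨hab, hne⟩
  have hT := ctm_component hcl.isCompact hp
  refine ⟨(hT.image continuous_fst.continuousOn).image hu.continuousOn, ?_, ?_⟩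
  · exact ⟨a, ⟨(a, b), mem_connectedComponentIn hp, rfl⟩, rfl⟩
  · exact hnf _ (connectedComponentIn_subset _ _) hT

theorem fib_pair {K Y : Type*} [TopologicalSpace K] [CompactSpace K] [T2Space K]
    [TopologicalSpace Y] [CompactSpace Y] [T2Space Y]
    (hY : Good Y) (u : K → Y) (hu : Continuous u) (hl : LocInj u) {A B : Set K} (hA : Ctm A)
    (hB : Ctm B) (hAi : InjOn u A) (hBi : InjOn u B)
    {a b : K} (ha : a ∈ A) (hb : b ∈ B) (hab : u a = u b) (hne : a ≠ b) :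
    u '' A ∩ u '' B ⊆ u '' (Prod.fst '' connectedComponentIn (Off u) (a, b)) := by
  obtain ⟨T, hT, hTO, habT, hTe⟩ := pair_ctm hY u hu hl hA hB hAi hBi ha hb hab hne
  rw [← hTe]
  exact image_mono (image_mono (hT.2.isPreconnected.subset_connectedComponentIn habT hTO))

/-- TARGET: fibres have at most two points -/
theorem fibre_le_two {K Y : Type*} [TopologicalSpace K] [CompactSpace K] [T2Space K]
    [ConnectedSpace K] [TopologicalSpace Y] [CompactSpace Y] [T2Space Y] [ConnectedSpace Y]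
    (hY : Good Y) (u : K → Y) (hu : Continuous u) (hus : Function.Surjective u) (hl : LocInj u)
    (hcl : IsClosed (Off u)) (hprop : ∀ C : Set K, Ctm C → C ≠ univ → InjOn u C)
    (hnf : ∀ C ⊆ Off u, Ctm C → u '' (Prod.fst '' C) ≠ univ)
    (hind : ∀ A B : Set Y, Ctm A → Ctm B → A ∪ B = univ → A = univ ∨ B = univ)
    {k1 k2 k3 : K} (h12 : u k1 = u k2) (h13 : u k1 = u k3) (n12 : k1 ≠ k2) (n13 : k1 ≠ k3)
    (n23 : k2 ≠ k3) : False := by
  obtain ⟨c12, m12, e12⟩ := fib_comp u hu hcl hnf h12 n12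
  obtain ⟨c13, m13, e13⟩ := fib_comp u hu hcl hnf h13 n13
  have h23 : u k2 = u k3 := h12.symm.trans h13
  obtain ⟨c23, m23, e23⟩ := fib_comp u hu hcl hnf h23 n23
  obtain ⟨V12, hV12⟩ : ∃ V, V = u '' (Prod.fst '' connectedComponentIn (Off u) (k1, k2)) :=
    ⟨_, rfl⟩
  obtain ⟨V13, hV13⟩ : ∃ V, V = u '' (Prod.fst '' connectedComponentIn (Off u) (k1, k3)) :=
    ⟨_, rfl⟩
  obtain ⟨V23, hV23⟩ : ∃ V, V = u '' (Prod.fst '' connectedComponentIn (Off u) (k2, k3)) :=
    ⟨_, rfl⟩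
  rw [← hV12] at c12 m12 e12
  rw [← hV13] at c13 m13 e13
  rw [← hV23, ← h12] at m23
  rw [← hV23] at c23 e23
  have cA : Ctm (V12 ∪ V13) := ctm_union c12 c13 ⟨_, m12, m13⟩
  have cV : Ctm (V12 ∪ V13 ∪ V23) := ctm_union cA c23 ⟨_, Or.inl m12, m23⟩
  have eA : V12 ∪ V13 ≠ univ := by
    intro h
    rcases hind _ _ c12 c13 h with h | h
    · exact e12 h
    · exact e13 h
  have eV : V12 ∪ V13 ∪ V23 ≠ univ := by
    intro h
    rcases hind _ _ cA c23 h with h | h
    · exact eA h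
    · exact e23 h
  obtain ⟨V, hV⟩ : ∃ V, V = V12 ∪ V13 ∪ V23 := ⟨_, rfl⟩
  rw [← hV] at cV eV
  obtain ⟨q, hq⟩ : ∃ q, q ∉ V := by
    by_contra hcon
    push Not at hcon
    exact eV (eq_univ_of_forall hcon)
  obtain ⟨O, hO, hVO, hOq⟩ := normal_exists_closure_subset cV.1.isClosed
    (isOpen_compl_singleton (x := q)) (fun x hx h => hq (by rw [← (h : x = q)]; exact hx))
  obtain ⟨x, hx⟩ := hus q
  have hyV : u k1 ∈ V := by rw [hV]; exact Or.inl (Or.inl m12)
  have hqO : q ∉ closure O := fun h => hOq h rfl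
  have hKc : Ctm (univ : Set K) := ⟨isCompact_univ, isConnected_univ⟩
  have hO' : IsOpen (u ⁻¹' (closure O)ᶜ) := isClosed_closure.isOpen_compl.preimage hu
  have hO'c : closure (u ⁻¹' (closure O)ᶜ) ⊆ u ⁻¹' Oᶜ := by
    apply closure_minimal _ (hO.isClosed_compl.preimage hu)
    exact preimage_mono (compl_subset_compl.2 subset_closure)
  have hdiff : (univ : Set K) \ (u ⁻¹' (closure O)ᶜ) = u ⁻¹' (closure O) := by
    ext z; simp
  -- properties of the components
  have hQ : ∀ k : K, u k = u k1 → Ctm (connectedComponentIn (u ⁻¹' (closure O)) k) ∧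
      k ∈ connectedComponentIn (u ⁻¹' (closure O)) k ∧
      InjOn u (connectedComponentIn (u ⁻¹' (closure O)) k) ∧
      ∃ l ∈ connectedComponentIn (u ⁻¹' (closure O)) k, u l ∉ O := by
    intro k hk
    have hk' : k ∈ u ⁻¹' (closure O) := by
      rw [mem_preimage, hk]
      exact subset_closure (hVO hyV)
    have hc : Ctm (connectedComponentIn (u ⁻¹' (closure O)) k) :=
      ctm_component (isClosed_closure.preimage hu).isCompact hk'
    refine ⟨hc, mem_connectedComponentIn hk', ?_, ?_⟩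
    · apply hprop _ hc
      intro h
      have h1 : x ∈ connectedComponentIn (u ⁻¹' (closure O)) k := by rw [h]; trivial
      have h2 := connectedComponentIn_subset _ _ h1
      rw [mem_preimage, hx] at h2
      exact hqO h2
    · obtain ⟨l, hl1, hl2⟩ := bump hKc hO' ⟨x, trivial, by
        rw [mem_preimage, hx]; exact hqO⟩ (mem_univ k) (fun h => h hk')
      rw [hdiff] at hl1
      exact ⟨l, hl1, hO'c hl2⟩
  obtain ⟨q1c, q1m, q1i, l1, hl1, hl1'⟩ := hQ k1 rfl
  obtain ⟨q2c, q2m, q2i, l2, hl2, hl2'⟩ := hQ k2 h12.symm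
  obtain ⟨q3c, q3m, q3i, l3, hl3, hl3'⟩ := hQ k3 h13.symm
  have p12 := fib_pair hY u hu hl q1c q2c q1i q2i q1m q2m h12 n12
  have p13 := fib_pair hY u hu hl q1c q3c q1i q3i q1m q3m h13 n13
  have p23 := fib_pair hY u hu hl q2c q3c q2i q3i q2m q3m h23 n23
  rw [← hV12] at p12
  rw [← hV13] at p13
  rw [← hV23] at p23
  have s12 : V12 ⊆ O := fun z hz => hVO (by rw [hV]; exact Or.inl (Or.inl hz))
  have s13 : V13 ⊆ O := fun z hz => hVO (by rw [hV]; exact Or.inl (Or.inr hz))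
  have s23 : V23 ⊆ O := fun z hz => hVO (by rw [hV]; exact Or.inr hz)
  have hatri := hY.atri (q1c.image hu.continuousOn) (q2c.image hu.continuousOn)
    (q3c.image hu.continuousOn) ⟨u k1, ⟨⟨k1, q1m, rfl⟩, ⟨k2, q2m, h12.symm⟩⟩, ⟨k3, q3m, h13.symm⟩⟩
  rcases hatri with h | h | h
  · rcases h ⟨l1, hl1, rfl⟩ with h' | h'
    · exact hl1' (s12 (p12 ⟨⟨l1, hl1, rfl⟩, h'⟩))
    · exact hl1' (s13 (p13 ⟨⟨l1, hl1, rfl⟩, h'⟩))
  · rcases h ⟨l2, hl2, rfl⟩ with h' | h'
    · exact hl2' (s12 (p12 ⟨h', ⟨l2, hl2, rfl⟩⟩))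
    · exact hl2' (s23 (p23 ⟨⟨l2, hl2, rfl⟩, h'⟩))
  · rcases h ⟨l3, hl3, rfl⟩ with h' | h'
    · exact hl3' (s13 (p13 ⟨h', ⟨l3, hl3, rfl⟩⟩))
    · exact hl3' (s23 (p23 ⟨h', ⟨l3, hl3, rfl⟩⟩))

end Pool.Agent.H963CF.L648
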