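import Pool.Agent.H963CF.L648.Defs

set_option autoImplicit false

namespace Pool.Agent.H963CF.L648

open Set Topology Filter
open Pool.Agent.H963CF.L739.CT (Ctm HasLog SpanZero ctm_union ctm_component clopen_nhd_component cutwire bump ctm_iInter_directed const_of_int circle_exp_eq_one circle_exp_int log_unique)
open Pool.Agent.H963CF.L739.CG (Good)

namespace D3Aux

variable {K Y : Type*}

theorem swap_mem_off {u : K → Y} {p : K × K} (hp : p ∈ Off u) : p.swap ∈ Off u :=
  ⟨hp.1.symm, fun h => hp.2 h.symm⟩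

variable [TopologicalSpace K] [CompactSpace K] [T2Space K] [TopologicalSpace Y]

/-- a component of `Off u` is disjoint from its swap -/
theorem comp_swap (u : K → Y) (hcl : IsClosed (Off u))
    (hus : Function.Surjective u) (hprop : ∀ C : Set K, Ctm C → C ≠ univ → InjOn u C)
    (hnf : ∀ C ⊆ Off u, Ctm C → u '' (Prod.fst '' C) ≠ univ) {p : K × K} (hp : p ∈ Off u) :
    connectedComponentIn (Off u) p ∩ Prod.swap ⁻¹' (connectedComponentIn (Off u) p) = ∅ := by
  set T := connectedComponentIn (Off u) p with hT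
  have hTc : Ctm T := ctm_component hcl.isCompact hp
  have hpT : p ∈ T := mem_connectedComponentIn hp
  have hTO : T ⊆ Off u := connectedComponentIn_subset _ _
  by_contra hne
  obtain ⟨q, hqT, hqs⟩ := nonempty_iff_ne_empty.2 hne
  have hpre : IsPreconnected (Prod.swap ⁻¹' T) := by
    rw [← image_swap_eq_preimage_swap]
    exact hTc.2.isPreconnected.image _ continuous_swap.continuousOn
  have hsub : Prod.swap ⁻¹' T ⊆ T := by
    have h1 : Prod.swap ⁻¹' T ⊆ connectedComponentIn (Off u) q :=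
      hpre.subset_connectedComponentIn hqs (fun x hx => by
        have := swap_mem_off (hTO hx)
        simpa using this)
    rw [← connectedComponentIn_eq hqT] at h1
    exact h1
  have hK0 : Ctm (Prod.fst '' T) := hTc.image continuous_fst.continuousOn
  have hmem1 : p.1 ∈ Prod.fst '' T := ⟨p, hpT, rfl⟩
  have hmem2 : p.2 ∈ Prod.fst '' T := ⟨p.swap, hsub (by simpa using hpT), rfl⟩
  have hninj : ¬ InjOn u (Prod.fst '' T) := fun h => hp.2 (h hmem1 hmem2 hp.1)
  have huniv : Prod.fst '' T = univ := by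
    by_contra hcon
    exact hninj (hprop _ hK0 hcon)
  apply hnf T hTO hTc
  rw [huniv, image_univ, hus.range_eq]

theorem exists_nhd (u : K → Y) (hcl : IsClosed (Off u))
    (hus : Function.Surjective u) (hprop : ∀ C : Set K, Ctm C → C ≠ univ → InjOn u C)
    (hnf : ∀ C ⊆ Off u, Ctm C → u '' (Prod.fst '' C) ≠ univ) {p : K × K} (hp : p ∈ Off u) :
    ∃ P : Set (K × K), IsClosed P ∧ IsClosed (Off u \ P) ∧ P ⊆ Off u ∧ p ∈ P ∧
      P ∩ Prod.swap ⁻¹' P = ∅ := by
  set T := connectedComponentIn (Off u) p with hT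
  have hTc : Ctm T := ctm_component hcl.isCompact hp
  have hpT : p ∈ T := mem_connectedComponentIn hp
  have hB : IsClosed (Prod.swap ⁻¹' T) := hTc.1.isClosed.preimage continuous_swap
  obtain ⟨P, Q, hP, hQ, hPQ, hd, hTP, hBQ⟩ := clopen_nhd_component hcl.isCompact hp hB
    (comp_swap u hcl hus hprop hnf hp)
  have hPO : P ⊆ Off u := hPQ ▸ subset_union_left
  have hQO : Q ⊆ Off u := hPQ ▸ subset_union_right
  refine ⟨P ∩ Prod.swap ⁻¹' Q, hP.isClosed.inter (hQ.isClosed.preimage continuous_swap), ?_,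
    inter_subset_left.trans hPO, ⟨hTP hpT, ?_⟩, ?_⟩
  · have : Off u \ (P ∩ Prod.swap ⁻¹' Q) = Q ∪ Prod.swap ⁻¹' P := by
      ext x
      constructor
      · rintro ⟨hx, hx'⟩
        by_cases hxP : x ∈ P
        · have hxQ : x.swap ∉ Q := fun h => hx' ⟨hxP, h⟩
          have hxs : x.swap ∈ P ∪ Q := by rw [hPQ]; exact swap_mem_off hx
          rcases hxs with h | h
          · exact Or.inr h
          · exact absurd h hxQ
        · have : x ∈ P ∪ Q := by rw [hPQ]; exact hx
          rcases this with h | h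
          · exact absurd h hxP
          · exact Or.inl h
      · rintro (h | h)
        · refine ⟨hQO h, fun h' => ?_⟩
          exact disjoint_left.1 hd h'.1 h
        · refine ⟨by simpa using swap_mem_off (hPO h), fun h' => ?_⟩
          exact disjoint_left.1 hd h h'.2
    rw [this]
    exact hQ.isClosed.union (hP.isClosed.preimage continuous_swap)
  · exact hBQ ⟨swap_mem_off hp, by simpa using hpT⟩
  · rw [eq_empty_iff_forall_notMem]
    rintro x ⟨⟨h1, h2⟩, h3, h4⟩
    have : x ∈ Q := by simpa using h4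
    exact disjoint_left.1 hd h1 this

theorem exists_D (u : K → Y) (hcl : IsClosed (Off u))
    (hus : Function.Surjective u) (hprop : ∀ C : Set K, Ctm C → C ≠ univ → InjOn u C)
    (hnf : ∀ C ⊆ Off u, Ctm C → u '' (Prod.fst '' C) ≠ univ) :
    ∃ D : Set (K × K), IsClosed D ∧ IsClosed (Off u \ D) ∧ D ⊆ Off u ∧
      D ∩ Prod.swap ⁻¹' D = ∅ ∧ Off u ⊆ D ∪ Prod.swap ⁻¹' D := by
  refine IsCompact.induction_on (s := Off u) (p := fun S => ∃ D : Set (K × K), IsClosed D ∧
    IsClosed (Off u \ D) ∧ D ⊆ Off u ∧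
      D ∩ Prod.swap ⁻¹' D = ∅ ∧ S ⊆ D ∪ Prod.swap ⁻¹' D) hcl.isCompact ?_ ?_ ?_ ?_
  · exact ⟨∅, isClosed_empty, by simpa using hcl, empty_subset _, by simp, empty_subset _⟩
  · rintro s t hst ⟨D, h1, h2, h3, h4, h5⟩
    exact ⟨D, h1, h2, h3, h4, hst.trans h5⟩
  · rintro s t ⟨D, h1, h2, h3, h4, h5⟩ ⟨E, h1', h2', h3', h4', h5'⟩
    have hsw : IsClosed (Off u \ Prod.swap ⁻¹' D) := by
      have : Off u \ Prod.swap ⁻¹' D = Prod.swap ⁻¹' (Off u \ D) := by
        ext x
        constructor
        · rintro ⟨hx, hx'⟩; exact ⟨swap_mem_off hx, hx'⟩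
        · rintro ⟨hx, hx'⟩; exact ⟨by simpa using swap_mem_off hx, hx'⟩
      rw [this]
      exact h2.preimage continuous_swap
    have hE : IsClosed (E \ (D ∪ Prod.swap ⁻¹' D)) := by
      have : E \ (D ∪ Prod.swap ⁻¹' D) = E ∩ (Off u \ D) ∩ (Off u \ Prod.swap ⁻¹' D) := by
        ext x
        constructor
        · rintro ⟨hx, hx'⟩
          exact ⟨⟨hx, h3' hx, fun h => hx' (Or.inl h)⟩, h3' hx, fun h => hx' (Or.inr h)⟩
        · rintro ⟨⟨hx, -, hx1⟩, -, hx2⟩
          exact ⟨hx, fun h => h.elim hx1 hx2⟩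
      rw [this]
      exact (h1'.inter h2).inter hsw
    refine ⟨D ∪ (E \ (D ∪ Prod.swap ⁻¹' D)), h1.union hE, ?_,
      union_subset h3 (sdiff_subset.trans h3'), ?_, ?_⟩
    · have : Off u \ (D ∪ (E \ (D ∪ Prod.swap ⁻¹' D))) =
          (Off u \ D) ∩ ((Off u \ E) ∪ Prod.swap ⁻¹' D) := by
        ext x
        constructor
        · rintro ⟨hx, hx'⟩
          have hxD : x ∉ D := fun h => hx' (Or.inl h)
          refine ⟨⟨hx, hxD⟩, ?_⟩
          by_cases hxE : x ∈ E
          · right
            by_contra hcon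
            exact hx' (Or.inr ⟨hxE, fun h => h.elim hxD hcon⟩)
          · exact Or.inl ⟨hx, hxE⟩
        · rintro ⟨⟨hx, hxD⟩, hx'⟩
          refine ⟨hx, fun h => ?_⟩
          rcases h with h | ⟨hE1, hE2⟩
          · exact hxD h
          · rcases hx' with h | h
            · exact h.2 hE1
            · exact hE2 (Or.inr h)
      rw [this]
      exact h2.inter (h2'.union (h1.preimage continuous_swap))
    · rw [eq_empty_iff_forall_notMem]
      rintro x ⟨hx1, hx2⟩
      have hD : ∀ y, y ∈ D → y.swap ∈ D → False := fun y hy hy' => by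
        have : y ∈ D ∩ Prod.swap ⁻¹' D := ⟨hy, hy'⟩
        rw [h4] at this
        exact this
      have hE : ∀ y, y ∈ E → y.swap ∈ E → False := fun y hy hy' => by
        have : y ∈ E ∩ Prod.swap ⁻¹' E := ⟨hy, hy'⟩
        rw [h4'] at this
        exact this
      rcases hx1 with hx1 | ⟨hx1, hx1'⟩ <;> rcases hx2 with hx2 | ⟨hx2, hx2'⟩
      · exact hD x hx1 hx2
      · apply hx2'
        right
        show x.swap.swap ∈ D
        simpa using hx1
      · exact hx1' (Or.inr hx2)
      · exact hE x hx1 hx2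
    · rintro x (hx | hx)
      · rcases h5 hx with h | h
        · exact Or.inl (Or.inl h)
        · exact Or.inr (Or.inl h)
      · by_cases hxD : x ∈ D ∪ Prod.swap ⁻¹' D
        · rcases hxD with h | h
          · exact Or.inl (Or.inl h)
          · exact Or.inr (Or.inl h)
        · rcases h5' hx with h | h
          · exact Or.inl (Or.inr ⟨h, hxD⟩)
          · refine Or.inr (Or.inr ⟨h, fun h' => hxD ?_⟩)
            rcases h' with h' | h'
            · exact Or.inr h'
            · left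
              have : x.swap.swap ∈ D := h'
              simpa using this
  · intro x hx
    obtain ⟨P, hP1, hP2, hP3, hP4, hP5⟩ := exists_nhd u hcl hus hprop hnf hx
    refine ⟨P, ?_, P, hP1, hP2, hP3, hP5, subset_union_left⟩
    rw [mem_nhdsWithin]
    refine ⟨(Off u \ P)ᶜ, hP2.isOpen_compl, fun h => h.2 hP4, ?_⟩
    rintro y ⟨hy1, hy2⟩
    by_contra hcon
    exact hy1 ⟨hy2, hcon⟩

end D3Aux

open D3Aux

/-- TARGET: the cocycle argument -/
theorem injective_of_fibre_le_two {K Y : Type*} [TopologicalSpace K] [CompactSpace K] [T2Space K]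
    [ConnectedSpace K] [TopologicalSpace Y] [CompactSpace Y] [T2Space Y] [ConnectedSpace Y]
    (hY : Good Y) (u : K → Y) (hu : Continuous u) (hus : Function.Surjective u)
    (hcl : IsClosed (Off u)) (hprop : ∀ C : Set K, Ctm C → C ≠ univ → InjOn u C)
    (hnf : ∀ C ⊆ Off u, Ctm C → u '' (Prod.fst '' C) ≠ univ)
    (h2 : ∀ k1 k2 k3 : K, u k1 = u k2 → u k1 = u k3 → k1 ≠ k2 → k1 ≠ k3 → k2 ≠ k3 → False) :
    Function.Injective u := by
  classical
  by_contra hni
  obtain ⟨a, b, hab, hne⟩ : ∃ a b, u a = u b ∧ a ≠ b := by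
    unfold Function.Injective at hni
    push_neg at hni
    exact hni
  have hp : (a, b) ∈ Off u := ⟨hab, hne⟩
  obtain ⟨D, hD1, hD2, hD3, hD4, hD5⟩ := exists_D u hcl hus hprop hnf
  have hDne : ∃ q, q ∈ D := by
    rcases hD5 hp with h | h
    · exact ⟨_, h⟩
    · exact ⟨_, h⟩
  have hF1 : IsClosed (Prod.fst '' D) := (hD1.isCompact.image continuous_fst).isClosed
  have hF2 : IsClosed (Prod.snd '' D) := (hD1.isCompact.image continuous_snd).isClosed
  have hdisj : Disjoint (Prod.snd '' D) (Prod.fst '' D) := by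
    rw [disjoint_left]
    rintro k ⟨⟨k'', k0⟩, h1, rfl⟩ ⟨⟨k1, k'⟩, h2', h3⟩
    simp only at h3
    subst h3
    have e1 := hD3 h1
    have e2 := hD3 h2'
    have hkk : k' = k'' := by
      by_contra hcon
      exact h2 k1 k' k'' e2.1 e1.1.symm e2.2 (fun h => e1.2 h.symm) hcon
    subst hkk
    have : ((k1, k') : K × K) ∈ D ∩ Prod.swap ⁻¹' D := ⟨h2', h1⟩
    rw [hD4] at this
    exact this
  obtain ⟨h, hh0, hh1, -⟩ := exists_continuous_zero_one_of_isClosed hF2 hF1 hdisj
  set ψ : K → Circle := fun k => Circle.exp (2 * Real.pi * h k) with hψ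
  have hψc : Continuous ψ := by
    apply Circle.exp.continuous.comp
    exact continuous_const.mul h.continuous
  have hone1 : ∀ k ∈ Prod.fst '' D, ψ k = 1 := by
    intro k hk
    simp only [hψ]
    rw [hh1 hk]
    simp
  have hone2 : ∀ k ∈ Prod.snd '' D, ψ k = 1 := by
    intro k hk
    simp only [hψ]
    rw [hh0 hk]
    simp
  have hψu : ∀ k k', u k = u k' → ψ k = ψ k' := by
    intro k k' hkk
    by_cases hk : k = k'
    · rw [hk]
    · rcases hD5 (show ((k, k') : K × K) ∈ Off u from ⟨hkk, hk⟩) with h' | h'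
      · rw [hone1 k ⟨_, h', rfl⟩, hone2 k' ⟨_, h', rfl⟩]
      · rw [hone2 k ⟨_, h', rfl⟩, hone1 k' ⟨_, h', rfl⟩]
  set g : Y → Circle := fun y => ψ (Function.surjInv hus y) with hg
  have hgu : ∀ k, g (u k) = ψ k := fun k => hψu _ _ (Function.surjInv_eq hus (u k))
  have hq : IsQuotientMap u := (Continuous.isClosedMap hu).isQuotientMap hu hus
  have hgc : Continuous g := by
    rw [hq.continuous_iff]
    have : g ∘ u = ψ := funext hgu
    rw [this]
    exact hψc
  obtain ⟨l, hl, hl'⟩ := hY.logOn isClosed_univ isConnected_univ hgc.continuousOn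
  have hluc : ContinuousOn (fun k => l (u k)) univ :=
    hl.comp hu.continuousOn (fun _ _ => mem_univ _)
  have hhc : ContinuousOn (fun k => 2 * Real.pi * h k) univ :=
    (continuous_const.mul h.continuous).continuousOn
  obtain ⟨⟨k, k'⟩, hq⟩ := hDne
  have key := log_unique (isPreconnected_univ (α := K)) hluc hhc (fun x _ => by
    rw [hl' _ (mem_univ _), hgu]) (mem_univ k) (mem_univ k')
  have e := hD3 hq
  have hu' : u k = u k' := e.1

  have hk1 : h k = 1 := hh1 ⟨_, hq, rfl⟩
  have hk0 : h k' = 0 := hh0 ⟨_, hq, rfl⟩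
  rw [hu', hk1, hk0] at key
  have := Real.pi_pos
  linarith

end Pool.Agent.H963CF.L648
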