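import Pool.Agent.H963CF.L739.CGUnion

set_option autoImplicit false

namespace Pool.Agent.H963CF.L648

open Set Topology Filter
open Pool.Agent.H963CF.L739.CT (Ctm HasLog SpanZero)
open Pool.Agent.H963CF.L739.CG (Good)

/-- Confluent: components of preimages of continua map onto. -/
def Confl {X Y : Type*} [TopologicalSpace X] [TopologicalSpace Y] (f : X → Y) : Prop :=
  ∀ Q : Set Y, Ctm Q → ∀ x ∈ f ⁻¹' Q, f '' connectedComponentIn (f ⁻¹' Q) x = Q

/-- Locally injective. -/
def LocInj {K Y : Type*} [TopologicalSpace K] (u : K → Y) : Prop :=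
  ∀ k : K, ∃ U ∈ 𝓝 k, InjOn u U

/-- The off-diagonal part of the fibre square. -/
def Off {K Y : Type*} (u : K → Y) : Set (K × K) := {p | u p.1 = u p.2 ∧ p.1 ≠ p.2}

/-- Every locally injective map of a continuum into Y is injective. -/
def Rigid (Y : Type) [TopologicalSpace Y] : Prop :=
  ∀ (K : Type) [TopologicalSpace K] [CompactSpace K] [T2Space K] [ConnectedSpace K] (u : K → Y),
    Continuous u → LocInj u → Function.Injective u


/-- the component restriction of a confluent map, as a map of subtypes -/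
def resMap {X Y : Type*} [TopologicalSpace X] {f : X → Y} {Q : Set Y} {A : Set X}
    (hA : A ⊆ f ⁻¹' Q) : A → Q := fun a => ⟨f a, hA a.2⟩

theorem ctm_image_val {X : Type*} [TopologicalSpace X] {A : Set X} {S : Set A} (hS : Ctm S) :
    Ctm ((↑) '' S : Set X) := hS.image continuous_subtype_val.continuousOn

theorem ctm_preimage_val {X : Type*} [TopologicalSpace X] [T2Space X] {S A : Set X}
    (hS : IsCompact S) (hA : Ctm A) (hAS : A ⊆ S) : Ctm ((↑) ⁻¹' A : Set S) := by
  have : CompactSpace S := isCompact_iff_compactSpace.1 hS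
  have him : ((↑) '' ((↑) ⁻¹' A : Set S) : Set X) = A := by
    rw [Subtype.image_preimage_coe, inter_eq_right.2 hAS]
  refine ⟨(hA.1.isClosed.preimage continuous_subtype_val).isCompact, ?_, ?_⟩
  · obtain ⟨a, ha⟩ := hA.2.nonempty
    exact ⟨⟨a, hAS ha⟩, ha⟩
  · rw [← IsInducing.subtypeVal.isPreconnected_image, him]
    exact hA.2.isPreconnected

/-- restriction of a confluent map to a component of a preimage -/
theorem Confl.restrict {X Y : Type*} [TopologicalSpace X] [CompactSpace X] [T2Space X]
    [TopologicalSpace Y] [T2Space Y] {f : X → Y} (hf : Continuous f) (hfc : Confl f)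
    {Q : Set Y} (hQ : Ctm Q) {x0 : X} (hx0 : x0 ∈ f ⁻¹' Q) :
    Confl (resMap (f := f) (connectedComponentIn_subset (f ⁻¹' Q) x0)) := by
  set A := connectedComponentIn (f ⁻¹' Q) x0 with hAdef
  have hAc : Ctm A := Pool.Agent.H963CF.L739.CT.ctm_component (hQ.1.isClosed.preimage hf).isCompact hx0
  set g : A → Q := resMap (f := f) (connectedComponentIn_subset (f ⁻¹' Q) x0) with hg
  intro R hR a ha
  -- R as a subset of Y
  set R' : Set Y := (↑) '' R with hR'
  have hR'c : Ctm R' := ctm_image_val hR
  have hR'Q : R' ⊆ Q := by rintro _ ⟨y, -, rfl⟩; exact y.2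
  have haR : (a : X) ∈ f ⁻¹' R' := ⟨g a, ha, rfl⟩
  set B := connectedComponentIn (f ⁻¹' R') (a : X) with hB
  have hBc : Ctm B := Pool.Agent.H963CF.L739.CT.ctm_component (hR'c.1.isClosed.preimage hf).isCompact haR
  have hBA : B ⊆ A := by
    have h1 : B ⊆ f ⁻¹' Q := (connectedComponentIn_subset _ _).trans (preimage_mono hR'Q)
    have h2 : B ⊆ connectedComponentIn (f ⁻¹' Q) (a : X) :=
      hBc.2.isPreconnected.subset_connectedComponentIn (mem_connectedComponentIn haR) h1
    rw [← connectedComponentIn_eq a.2] at h2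
    exact h2
  have hfB : f '' B = R' := hfc R' hR'c a haR
  have hB'c : Ctm ((↑) ⁻¹' B : Set A) := ctm_preimage_val hAc.1 hBc hBA
  have hsub : ((↑) ⁻¹' B : Set A) ⊆ connectedComponentIn (g ⁻¹' R) a := by
    apply hB'c.2.isPreconnected.subset_connectedComponentIn
    · exact mem_connectedComponentIn haR
    · intro b hb
      have : f b ∈ R' := (connectedComponentIn_subset _ _ hb : (b : X) ∈ f ⁻¹' R')
      obtain ⟨y, hy, hyb⟩ := this
      have : g b = y := Subtype.ext hyb.symm
      rw [mem_preimage, this]; exact hy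
  apply Subset.antisymm
  · rintro _ ⟨b, hb, rfl⟩
    exact (connectedComponentIn_subset (g ⁻¹' R) a hb : b ∈ g ⁻¹' R)
  · intro y hy
    have : (y : Y) ∈ f '' B := by rw [hfB]; exact ⟨y, hy, rfl⟩
    obtain ⟨b, hb, hby⟩ := this
    exact ⟨⟨b, hBA hb⟩, hsub hb, Subtype.ext hby⟩

theorem good_of_spanZero {X : Type*} [TopologicalSpace X] [CompactSpace X] [T2Space X]
    (hX : SpanZero X) : Good X :=
  ⟨fun hS hSc _ hg => Pool.Agent.H963CF.L739.CT.log_on hX hS hSc hg,
    fun hA hB hC h => Pool.Agent.H963CF.L739.CT.atriodic hX hA hB hC h⟩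

theorem Good.subtype {Y : Type*} [TopologicalSpace Y] [CompactSpace Y] [T2Space Y] (hY : Good Y)
    {S : Set Y} (hS : IsClosed S) : Good S := by
  classical
  constructor
  · intro T hT hTc g hg
    have hTc' : Ctm ((↑) '' T : Set Y) := by
      have : CompactSpace S := isCompact_iff_compactSpace.1 hS.isCompact
      exact ctm_image_val ⟨hT.isCompact, hTc⟩
    set g' : Y → Circle := fun y => if h : y ∈ S then g ⟨y, h⟩ else 1 with hg'
    have hg'c : ContinuousOn g' ((↑) '' T) := by
      rw [continuousOn_iff_continuous_domRestrict] at hg ⊢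
      have : ∀ y : ((↑) '' T : Set Y), (y : Y) ∈ S := by
        rintro ⟨_, ⟨y, -, rfl⟩⟩; exact y.2
      have hcont : Continuous (fun y : ((↑) '' T : Set Y) => (⟨(y : Y), this y⟩ : S)) :=
        Continuous.subtype_mk continuous_subtype_val _
      have hmem : ∀ y : ((↑) '' T : Set Y), (⟨(y : Y), this y⟩ : S) ∈ T := by
        rintro ⟨_, ⟨y, hy, rfl⟩⟩; exact hy
      have h2 : Continuous (fun y : ((↑) '' T : Set Y) =>
          (⟨⟨(y : Y), this y⟩, hmem y⟩ : T)) := Continuous.subtype_mk hcont _
      convert hg.comp h2 using 1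
      funext y
      simp [hg', Set.domRestrict, this y]
    obtain ⟨l, hl, hl'⟩ := hY.logOn hTc'.1.isClosed hTc'.2 hg'c
    refine ⟨fun y => l y, ?_, ?_⟩
    · exact hl.comp continuous_subtype_val.continuousOn (fun y hy => ⟨y, hy, rfl⟩)
    · intro y hy
      rw [hl' y ⟨y, hy, rfl⟩]
      simp [hg']
  · intro A B C hA hB hC h
    have := hY.atri (ctm_image_val hA) (ctm_image_val hB) (ctm_image_val hC) (by
      obtain ⟨y, ⟨hy1, hy2⟩, hy3⟩ := h
      exact ⟨y, ⟨⟨y, hy1, rfl⟩, y, hy2, rfl⟩, y, hy3, rfl⟩)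
    rw [← image_union, ← image_union, ← image_union, image_subset_image_iff Subtype.val_injective,
      image_subset_image_iff Subtype.val_injective,
      image_subset_image_iff Subtype.val_injective] at this
    exact this

theorem Rigid.subtype {Y : Type} [TopologicalSpace Y] (hY : Rigid Y) (S : Set Y) : Rigid S := by
  intro K _ _ _ _ u hu hl
  have := hY K (fun k => (u k : Y)) (continuous_subtype_val.comp hu) (by
    intro k
    obtain ⟨U, hU, hUi⟩ := hl k
    exact ⟨U, hU, fun a ha b hb h => hUi ha hb (Subtype.ext h)⟩)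
  intro a b h
  exact this (congrArg Subtype.val h)

end Pool.Agent.H963CF.L648
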