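import Pool.Agent.H963CF.L648.Defs

set_option autoImplicit false

namespace Pool.Agent.H963CF.L648

open Set Topology Filter
open Pool.Agent.H963CF.L739.CT (Ctm HasLog SpanZero ctm_union ctm_component clopen_nhd_component cutwire bump ctm_iInter_directed const_of_int circle_exp_eq_one circle_exp_int log_unique)
open Pool.Agent.H963CF.L739.CG (Good)

/-- global logarithms on a Good space -/
theorem h170_log_global {Y : Type*} [TopologicalSpace Y] [CompactSpace Y] [T2Space Y] (hY : Good Y)
    {g : Y → Circle} (hg : Continuous g) : ∃ l : Y → ℝ, Continuous l ∧ ∀ x, Circle.exp (l x) = g x := by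
  classical
  -- local clopen pieces
  have hloc : ∀ x : Y, ∃ P : Set Y, IsClopen P ∧ x ∈ P ∧ ∃ l : Y → ℝ, ContinuousOn l P ∧
      ∀ z ∈ P, Circle.exp (l z) = g z := by
    intro x
    set C := connectedComponent x with hC
    have hCc : IsClosed C := isClosed_connectedComponent
    obtain ⟨l0, hl0, hl0'⟩ := hY.logOn hCc isConnected_connectedComponent hg.continuousOn
    obtain ⟨L, hL⟩ := ContinuousMap.exists_restrict_eq hCc
      (⟨C.domRestrict l0, continuousOn_iff_continuous_domRestrict.1 hl0⟩ : C(C, ℝ))
    have hLC : ∀ z ∈ C, L z = l0 z := by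
      intro z hz
      have := congrArg (fun f : C(C, ℝ) => f ⟨z, hz⟩) hL
      simpa using this
    set h : Y → Circle := fun z => g z / Circle.exp (L z) with hh
    have hhc : Continuous h := hg.div' (Circle.exp.continuous.comp L.continuous)
    set B : Set Y := {z | (h z : ℂ).re ≤ 0} with hB
    have hBc : IsClosed B := isClosed_le
      (Complex.continuous_re.comp (continuous_subtype_val.comp hhc)) continuous_const
    have hCB : connectedComponentIn univ x ∩ B = ∅ := by
      rw [connectedComponentIn_univ]
      ext z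
      simp only [mem_inter_iff, mem_empty_iff_false, iff_false, not_and]
      intro hz hzB
      have h1 : h z = 1 := by
        simp only [hh]
        rw [hLC z hz, hl0' z hz, div_self']
      have h2 : (h z : ℂ).re ≤ 0 := hzB
      rw [h1] at h2
      norm_num at h2
    obtain ⟨P, Q, hP, hQ, hPQ, hdis, hCP, hBQ⟩ :=
      clopen_nhd_component (isCompact_univ (X := Y)) (mem_univ x) hBc hCB
    have hPclopen : IsClopen P := by
      refine ⟨hP.isClosed, ?_⟩
      have : P = Qᶜ := by
        ext z
        constructor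
        · intro hz hzQ
          exact Set.disjoint_left.1 hdis hz hzQ
        · intro hz
          have : z ∈ P ∪ Q := by rw [hPQ]; exact mem_univ z
          exact this.resolve_right hz
      rw [this]
      exact hQ.isClosed.isOpen_compl
    refine ⟨P, hPclopen, hCP (mem_connectedComponentIn (mem_univ x)),
      fun z => L z + Complex.arg (h z : ℂ), ?_, ?_⟩
    · refine L.continuous.continuousOn.add ?_
      intro z hz
      have hre : (0:ℝ) < (h z : ℂ).re := by
        by_contra hc
        push Not at hc
        exact Set.disjoint_left.1 hdis hz (hBQ ⟨mem_univ z, hc⟩)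
      exact (ContinuousAt.comp (g := fun z : Circle => Complex.arg (z : ℂ))
        (Pool.Agent.H963CF.L739.CT.continuousAt_arg hre) hhc.continuousAt).continuousWithinAt
    · intro z _
      rw [Circle.exp_add, Pool.Agent.H963CF.L739.CT.exp_arg]
      simp [hh]
  have key := isCompact_univ.induction_on (X := Y)
    (p := fun s => ∃ P : Set Y, IsClopen P ∧ s ⊆ P ∧ ∃ l : Y → ℝ, ContinuousOn l P ∧
      ∀ z ∈ P, Circle.exp (l z) = g z)
    ⟨∅, isClopen_empty, subset_refl _, fun _ => 0, continuousOn_empty _, fun z hz => hz.elim⟩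
    (fun s t hst ⟨P, hP, htP, h⟩ => ⟨P, hP, hst.trans htP, h⟩)
    (by
      rintro s t ⟨P, hP, hsP, l, hl, hl'⟩ ⟨P', hP', htP', l', hm, hm'⟩
      refine ⟨P ∪ P', hP.union hP', union_subset_union hsP htP', P.piecewise l l', ?_, ?_⟩
      · have e : P ∪ P' = P ∪ (P' \ P) := by simp
        rw [e]
        refine ContinuousOn.union_of_isOpen ?_ ?_ hP.2 (IsClopen.diff hP' hP).2
        · exact hl.congr (fun z hz => piecewise_eq_of_mem _ _ _ hz)
        · exact (hm.mono sdiff_subset).congr (fun z hz => piecewise_eq_of_notMem _ _ _ hz.2)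
      · intro z hz
        by_cases hzP : z ∈ P
        · rw [piecewise_eq_of_mem _ _ _ hzP]; exact hl' z hzP
        · rw [piecewise_eq_of_notMem _ _ _ hzP]; exact hm' z (hz.resolve_left hzP))
    (by
      intro x _
      obtain ⟨P, hP, hxP, l, hl, hl'⟩ := hloc x
      exact ⟨P, mem_nhdsWithin_of_mem_nhds (hP.2.mem_nhds hxP), P, hP, subset_refl _, l, hl, hl'⟩)
  obtain ⟨P, hP, hu, l, hl, hl'⟩ := key
  have hPu : P = univ := univ_subset_iff.1 hu
  rw [hPu] at hl hl'
  exact ⟨l, continuousOn_univ.1 hl, fun x => hl' x (mem_univ x)⟩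

/-- TARGET: logarithms on arbitrary closed subsets of a Good space -/
theorem log_closed {Y : Type*} [TopologicalSpace Y] [CompactSpace Y] [T2Space Y] (hY : Good Y)
    {S : Set Y} (hS : IsClosed S) {g : Y → Circle} (hg : ContinuousOn g S) :
    ∃ l : Y → ℝ, Continuous l ∧ ∀ x ∈ S, Circle.exp (l x) = g x := by
  have : CompactSpace S := isCompact_iff_compactSpace.1 hS.isCompact
  have hGS : Good S := Good.subtype hY hS
  obtain ⟨l, hl, hl'⟩ := h170_log_global hGS (continuousOn_iff_continuous_domRestrict.1 hg)
  obtain ⟨L, hL⟩ := ContinuousMap.exists_restrict_eq hS (⟨l, hl⟩ : C(S, ℝ))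
  refine ⟨L, L.continuous, fun x hx => ?_⟩
  have h1 := congrArg (fun f : C(S, ℝ) => f ⟨x, hx⟩) hL
  have h2 : L x = l ⟨x, hx⟩ := by simpa using h1
  rw [h2, hl']
  rfl

end Pool.Agent.H963CF.L648
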