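import Pool.Agent.H963CF.L648.T1

set_option autoImplicit false

namespace Pool.Agent.H963CF.L648

open Set Topology Filter
open Pool.Agent.H963CF.L739.CT (Ctm HasLog SpanZero ctm_union ctm_component clopen_nhd_component cutwire bump ctm_iInter_directed const_of_int circle_exp_eq_one circle_exp_int log_unique)
open Pool.Agent.H963CF.L739.CG (Good)

/-- a continuous circle map on the domain of a map injective on `R` transfers to the image -/
theorem lol_transfer {A Y Z : Type*} [TopologicalSpace A] [T2Space A] [TopologicalSpace Y]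
    [T2Space Y] [TopologicalSpace Z] {w : A → Y} (hw : Continuous w) {R : Set A}
    (hR : IsCompact R) (hi : InjOn w R) (ψ : A → Z) (hψ : Continuous ψ) (z0 : Z) :
    ∃ g : Y → Z, ContinuousOn g (w '' R) ∧ ∀ r ∈ R, g (w r) = ψ r := by
  classical
  obtain ⟨g, hg⟩ : ∃ g : Y → Z, ∀ r ∈ R, g (w r) = ψ r := by
    refine ⟨fun y => if h : ∃ r ∈ R, w r = y then ψ h.choose else z0, ?_⟩
    intro r hr
    have h : ∃ r' ∈ R, w r' = w r := ⟨r, hr, rfl⟩
    simp only [h, dif_pos]
    rw [hi h.choose_spec.1 hr h.choose_spec.2]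
  refine ⟨g, ?_, hg⟩
  rw [continuousOn_iff_isClosed]
  intro t ht
  refine ⟨w '' (R ∩ ψ ⁻¹' t), ((hR.inter_right (ht.preimage hψ)).image hw).isClosed, ?_⟩
  apply Subset.antisymm
  · rintro _ ⟨hy, r, hr, rfl⟩
    refine ⟨⟨r, ⟨hr, ?_⟩, rfl⟩, r, hr, rfl⟩
    have : g (w r) ∈ t := hy
    rw [hg r hr] at this
    exact this
  · rintro _ ⟨⟨r, ⟨hr, hrt⟩, rfl⟩, h2⟩
    refine ⟨?_, h2⟩
    show g (w r) ∈ t
    rw [hg r hr]
    exact hrt

/-- TARGET -/
theorem log_of_lift {X Y L : Type} [TopologicalSpace X] [CompactSpace X] [T2Space X]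
    [TopologicalSpace Y] [CompactSpace Y] [T2Space Y] [TopologicalSpace L] [CompactSpace L]
    [T2Space L] [ConnectedSpace L] (hXr : Rigid X) (hXg : Good X) (hYg : Good Y) (f : X → Y)
    (hf : Continuous f) (hfs : Function.Surjective f) (hfc : Confl f) (w : L → Y)
    (hw : Continuous w) (hl : LocInj w) (hprop : ∀ C : Set L, Ctm C → C ≠ univ → InjOn w C)
    (φ : L → Circle) (hφ : Continuous φ) : HasLog φ := by
  classical
  obtain ⟨S, hS⟩ : ∃ S : Set (L × X), S = {p | w p.1 = f p.2} := ⟨_, rfl⟩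
  have hScl : IsClosed S := by
    rw [hS]; exact isClosed_eq (hw.comp continuous_fst) (hf.comp continuous_snd)
  have hSc : IsCompact S := hScl.isCompact
  obtain ⟨c0⟩ : Nonempty L := inferInstance
  obtain ⟨x0, hx0⟩ := hfs (w c0)
  have hp0 : (c0, x0) ∈ S := by rw [hS]; exact hx0.symm
  obtain ⟨B, hB⟩ : ∃ B : Set (L × X), B = connectedComponentIn S (c0, x0) := ⟨_, rfl⟩
  have hBc : Ctm B := by rw [hB]; exact ctm_component hSc hp0
  have hBS : ∀ p ∈ B, w p.1 = f p.2 := by
    intro p hp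
    have : p ∈ S := by rw [hB] at hp; exact connectedComponentIn_subset _ _ hp
    rw [hS] at this
    exact this
  have hp0B : (c0, x0) ∈ B := by rw [hB]; exact mem_connectedComponentIn hp0
  have instC : CompactSpace B := isCompact_iff_compactSpace.1 hBc.1
  have instD : ConnectedSpace B := isConnected_iff_connectedSpace.1 hBc.2
  -- the second projection is injective on `B`
  have huc : Continuous (fun p : B => p.1.2) := continuous_snd.comp continuous_subtype_val
  have hui : Function.Injective (fun p : B => p.1.2) := by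
    refine hXr B (fun p : B => p.1.2) huc ?_
    intro k
    obtain ⟨U, hU, hUi⟩ := hl k.1.1
    refine ⟨(fun p : B => p.1.1) ⁻¹' U,
      (continuous_fst.comp continuous_subtype_val).continuousAt.preimage_mem_nhds hU, ?_⟩
    intro a ha b hb hab
    have hab' : a.1.2 = b.1.2 := hab
    have h1 : w a.1.1 = w b.1.1 := by rw [hBS a.1 a.2, hBS b.1 b.2, hab']
    exact Subtype.ext (Prod.ext (hUi ha hb h1) hab')
  -- the log on `B`
  have hM : HasLog (fun m : B => φ m.1.1) := by
    obtain ⟨g, hgc, hg⟩ := lol_transfer huc (R := univ) isCompact_univ hui.injOn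
      (fun m : B => φ m.1.1) (hφ.comp (continuous_fst.comp continuous_subtype_val)) 1
    rw [image_univ] at hgc
    obtain ⟨l, hl, hl'⟩ := hXg.logOn (isCompact_range huc).isClosed (isConnected_range huc) hgc
    exact ⟨fun m => l m.1.2, hl.comp_continuous huc (fun m => ⟨m, rfl⟩),
      fun m => (hl' _ ⟨m, rfl⟩).trans (hg m (mem_univ m))⟩
  -- key lifting
  have key : ∀ R : Set L, Ctm R → R ≠ univ → ∀ p ∈ B, p.1 ∈ R →
      ∃ G : Set (L × X), Ctm G ∧ G ⊆ B ∧ p ∈ G ∧ Prod.fst '' G = R := by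
    rintro R hR hRu ⟨c1, x1⟩ hp hc1
    have hRi : InjOn w R := hprop R hR hRu
    have hwR : Ctm (w '' R) := hR.image hw.continuousOn
    have hx1 : x1 ∈ f ⁻¹' (w '' R) := ⟨c1, hc1, hBS _ hp⟩
    obtain ⟨A, hA⟩ : ∃ A : Set X, A = connectedComponentIn (f ⁻¹' (w '' R)) x1 := ⟨_, rfl⟩
    have hAc : Ctm A := by
      rw [hA]; exact ctm_component (hwR.1.isClosed.preimage hf).isCompact hx1
    have hfA : f '' A = w '' R := by rw [hA]; exact hfc _ hwR x1 hx1
    have hx1A : x1 ∈ A := by rw [hA]; exact mem_connectedComponentIn hx1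
    obtain ⟨σ, hσ⟩ : ∃ σ : X → L, ∀ x ∈ A, σ x ∈ R ∧ w (σ x) = f x := by
      refine ⟨fun x => if h : ∃ r ∈ R, w r = f x then h.choose else c1, ?_⟩
      intro x hx
      have h : ∃ r ∈ R, w r = f x := by
        have : f x ∈ w '' R := by rw [← hfA]; exact ⟨x, hx, rfl⟩
        exact this
      simp only [h, dif_pos]
      exact h.choose_spec
    have hσu : ∀ x ∈ A, ∀ r ∈ R, w r = f x → σ x = r := by
      intro x hx r hr h
      exact hRi (hσ x hx).1 hr ((hσ x hx).2.trans h.symm)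
    have hσc : ContinuousOn σ A := by
      rw [continuousOn_iff_isClosed]
      intro t ht
      refine ⟨f ⁻¹' (w '' (R ∩ t)), (((hR.1.inter_right ht).image hw).isClosed).preimage hf, ?_⟩
      apply Subset.antisymm
      · rintro x ⟨hxt, hx⟩
        exact ⟨⟨σ x, ⟨(hσ x hx).1, hxt⟩, (hσ x hx).2⟩, hx⟩
      · rintro x ⟨⟨r, ⟨hr, hrt⟩, hrx⟩, hx⟩
        refine ⟨?_, hx⟩
        show σ x ∈ t
        rw [hσu x hx r hr hrx]
        exact hrt
    have hGc : Ctm ((fun x => (σ x, x)) '' A) := hAc.image (hσc.prodMk continuousOn_id)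
    have hpG : (c1, x1) ∈ (fun x => (σ x, x)) '' A :=
      ⟨x1, hx1A, Prod.ext (hσu x1 hx1A c1 hc1 (hBS _ hp)) rfl⟩
    have hGS : (fun x => (σ x, x)) '' A ⊆ S := by
      rintro _ ⟨x, hx, rfl⟩
      rw [hS]
      exact (hσ x hx).2
    refine ⟨(fun x => (σ x, x)) '' A, hGc, ?_, hpG, ?_⟩
    · have h1 := hGc.2.isPreconnected.subset_connectedComponentIn hpG hGS
      have hp' := hp
      rw [hB] at hp'
      rw [hB, connectedComponentIn_eq hp']
      exact h1
    · apply Subset.antisymm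
      · rintro _ ⟨_, ⟨x, hx, rfl⟩, rfl⟩
        exact (hσ x hx).1
      · intro r hr
        have : w r ∈ f '' A := by rw [hfA]; exact ⟨r, hr, rfl⟩
        obtain ⟨x, hx, hxr⟩ := this
        exact ⟨(σ x, x), ⟨x, hx, rfl⟩, hσu x hx r hr hxr.symm⟩
  -- surjectivity of the first projection
  have hsurj : ∀ c : L, ∃ p ∈ B, p.1 = c := by
    by_contra hcon
    push Not at hcon
    obtain ⟨w1, hw1⟩ := hcon
    have hCc : IsClosed (Prod.fst '' B : Set L) := (hBc.1.image continuous_fst).isClosed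
    have hw1C : w1 ∉ (Prod.fst '' B : Set L) := by
      rintro ⟨p, hp, h⟩
      exact hw1 p hp h
    obtain ⟨O, hO, hw1O, hdis⟩ :=
      Pool.Agent.H963CF.L739.CT.exists_open_closure_disjoint hCc hw1C
    have hc0C : c0 ∈ (Prod.fst '' B : Set L) := ⟨_, hp0B, rfl⟩
    have hc0O : c0 ∉ O := fun h => disjoint_left.1 hdis (subset_closure h) hc0C
    obtain ⟨y, hyR, hyO⟩ := bump (Z := (univ : Set L)) ⟨isCompact_univ, isConnected_univ⟩ hO
      ⟨w1, mem_univ _, hw1O⟩ (mem_univ c0) hc0O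
    have hRc : Ctm (connectedComponentIn (univ \ O) c0) :=
      ctm_component (isCompact_univ.diff hO) ⟨mem_univ _, hc0O⟩
    have hRu : connectedComponentIn (univ \ O) c0 ≠ univ := by
      intro h
      have h1 : w1 ∈ connectedComponentIn (univ \ O) c0 := by rw [h]; exact mem_univ _
      exact (connectedComponentIn_subset _ _ h1).2 hw1O
    obtain ⟨G, -, hGB, -, hGR⟩ := key _ hRc hRu (c0, x0) hp0B
      (mem_connectedComponentIn ⟨mem_univ _, hc0O⟩)
    rw [← hGR] at hyR
    exact disjoint_left.1 hdis hyO (image_mono hGB hyR)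
  have hne : Nonempty B := ⟨⟨_, hp0B⟩⟩
  refine log_transfer (fun m : B => m.1.1) (continuous_fst.comp continuous_subtype_val) ?_ φ hφ hM
    ?_ ?_
  · intro c
    obtain ⟨p, hp, hpc⟩ := hsurj c
    exact ⟨⟨p, hp⟩, hpc⟩
  · intro R hR hRu
    obtain ⟨g, hgc, hg⟩ := lol_transfer hw hR.1 (hprop R hR hRu) φ hφ 1
    have hwR : Ctm (w '' R) := hR.image hw.continuousOn
    obtain ⟨l, hl, hl'⟩ := hYg.logOn hwR.1.isClosed hwR.2 hgc
    exact ⟨fun x => l (w x), hl.comp hw.continuousOn (fun x hx => ⟨x, hx, rfl⟩),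
      fun x hx => (hl' _ ⟨x, hx, rfl⟩).trans (hg x hx)⟩
  · intro R hR hRu m hm r hr
    obtain ⟨G, hG, hGB, hmG, hGR⟩ := key R hR hRu m.1 m.2 hm
    have hG' : Ctm ((↑) ⁻¹' G : Set B) := ctm_preimage_val hBc.1 hG hGB
    have hsub : ((↑) ⁻¹' G : Set B) ⊆ connectedComponentIn ((fun m : B => m.1.1) ⁻¹' R) m := by
      apply hG'.2.isPreconnected.subset_connectedComponentIn
      · exact hmG
      · intro b hb
        show b.1.1 ∈ R
        rw [← hGR]
        exact ⟨b.1, hb, rfl⟩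
    rw [← hGR] at hr
    obtain ⟨p, hp, hpr⟩ := hr
    exact ⟨⟨p, hGB hp⟩, hsub hp, hpr⟩

end Pool.Agent.H963CF.L648
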