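import Pool.Agent.H963CF.L648.D0
import Pool.Agent.H963CF.L648.T4

set_option autoImplicit false

namespace Pool.Agent.H963CF.L648

open Set Topology Filter
open Pool.Agent.H963CF.L739.CT (Ctm HasLog SpanZero ctm_union ctm_component clopen_nhd_component cutwire bump ctm_iInter_directed const_of_int circle_exp_eq_one circle_exp_int log_unique)
open Pool.Agent.H963CF.L739.CG (Good)

theorem fibre_finite {K Y : Type*} [TopologicalSpace K] [CompactSpace K]
    [TopologicalSpace Y] [T2Space Y] (u : K → Y) (hu : Continuous u) (hl : LocInj u) (y : Y) :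
    (u ⁻¹' {y}).Finite := by
  have hF : IsCompact (u ⁻¹' {y}) := (isClosed_singleton.preimage hu).isCompact
  choose U hU hUi using hl
  obtain ⟨t, ht, hcov⟩ := hF.elim_nhds_subcover U (fun k _ => hU k)
  refine t.finite_toSet.subset ?_
  intro k hk
  have := hcov hk
  rw [mem_iUnion₂] at this
  obtain ⟨x, hx, hkx⟩ := this
  have hxy : u x = y := ht x hx
  have hky : u k = y := hk
  have : k = x := hUi x hkx (mem_of_mem_nhds (hU x)) (by rw [hky, hxy])
  rw [this]
  exact hx

/-- TARGET 1: minimal full configuration continuum -/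
theorem exists_config {K Y : Type} [TopologicalSpace K] [CompactSpace K] [T2Space K]
    [ConnectedSpace K] [TopologicalSpace Y] [CompactSpace Y] [T2Space Y] [ConnectedSpace Y]
    (u : K → Y) (hu : Continuous u) (hus : Function.Surjective u) (hl : LocInj u) :
    ∃ (r : ℕ) (C : Set (Fin (r + 1) → K)), Ctm C ∧
      (∀ c ∈ C, Function.Injective c ∧ ∀ i, u (c i) = u (c 0)) ∧
      (∀ y, ∃ c ∈ C, u (c 0) = y) ∧
      (∀ C' ⊆ C, Ctm C' → (∀ y, ∃ c ∈ C', u (c 0) = y) → C' = C) ∧
      ¬ ∃ C' : Set (Fin (r + 2) → K), Ctm C' ∧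
        (∀ c ∈ C', Function.Injective c ∧ ∀ i, u (c i) = u (c 0)) ∧
        (∀ y, ∃ c ∈ C', u (c 0) = y) := by
  classical
  let Fl : (r : ℕ) → Set (Fin (r + 1) → K) → Prop := fun r C => Ctm C ∧
      (∀ c ∈ C, Function.Injective c ∧ ∀ i, u (c i) = u (c 0)) ∧
      (∀ y, ∃ c ∈ C, u (c 0) = y)
  have h0 : ∃ C, Fl 0 C := by
    refine ⟨univ, ⟨isCompact_univ, isConnected_univ⟩, ?_, ?_⟩
    · intro c _
      have hss : ∀ a b : Fin (0 + 1), a = b := fun a b => Fin.ext (by omega)
      refine ⟨fun a b _ => hss a b, fun i => ?_⟩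
      rw [hss i 0]
    · intro y
      obtain ⟨k, hk⟩ := hus y
      exact ⟨fun _ => k, mem_univ _, hk⟩
  have hY : Nonempty Y := inferInstance
  obtain ⟨y0⟩ := hY
  have hfin := fibre_finite u hu hl y0
  have hbd : ∀ r C, Fl r C → r + 1 ≤ hfin.toFinset.card := by
    intro r C hC
    obtain ⟨c, hc, hcy⟩ := hC.2.2 y0
    have h1 : (Finset.univ.image c).card = r + 1 := by
      rw [Finset.card_image_of_injective _ (hC.2.1 c hc).1]
      simp
    rw [← h1]
    apply Finset.card_le_card
    intro k hk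
    rw [Finset.mem_image] at hk
    obtain ⟨i, -, rfl⟩ := hk
    rw [Set.Finite.mem_toFinset]
    show u (c i) = y0
    rw [(hC.2.1 c hc).2 i, hcy]
  have hex : ∃ r, (∃ C, Fl r C) ∧ ¬ ∃ C, Fl (r + 1) C := by
    by_contra hcon
    push Not at hcon
    have hall : ∀ r, ∃ C, Fl r C := by
      intro r
      induction r with
      | zero => exact h0
      | succ r ih =>
        exact hcon r ih
    obtain ⟨C, hC⟩ := hall hfin.toFinset.card
    have := hbd _ C hC
    omega
  obtain ⟨r, ⟨C, hC⟩, hmax⟩ := hex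
  obtain ⟨m, hm, hmin⟩ := zorn_superset_nonempty {C : Set (Fin (r + 1) → K) | Fl r C} (by
      intro c hc hchain hne
      have : Nonempty c := hne.to_subtype
      have hdir : Directed (· ⊇ ·) (fun i : c => (i : Set (Fin (r + 1) → K))) := by
        intro i j
        rcases hchain.total i.2 j.2 with h | h
        · exact ⟨i, Subset.rfl, h⟩
        · exact ⟨j, h, Subset.rfl⟩
      refine ⟨⋂ i : c, (i : Set (Fin (r + 1) → K)),
        ⟨ctm_iInter_directed hdir (fun i => (hc i.2).1), ?_, ?_⟩, ?_⟩
      · intro p hp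
        obtain ⟨i⟩ : Nonempty c := inferInstance
        exact (hc i.2).2.1 p (mem_iInter.1 hp i)
      · intro y
        have hcl : IsClosed {p : Fin (r + 1) → K | u (p 0) = y} :=
          isClosed_singleton.preimage (hu.comp (continuous_apply 0))
        have hne' : (⋂ i : c, ((i : Set (Fin (r + 1) → K)) ∩ {p | u (p 0) = y})).Nonempty := by
          apply IsCompact.nonempty_iInter_of_directed_nonempty_isCompact_isClosed
          · intro i j
            obtain ⟨k, hki, hkj⟩ := hdir i j
            exact ⟨k, inter_subset_inter_left _ hki, inter_subset_inter_left _ hkj⟩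
          · intro i
            obtain ⟨q, hq, hq'⟩ := (hc i.2).2.2 y
            exact ⟨q, hq, hq'⟩
          · intro i
            exact (hc i.2).1.1.inter_right hcl
          · intro i
            exact (hc i.2).1.1.isClosed.inter hcl
        obtain ⟨q, hq⟩ := hne'
        rw [mem_iInter] at hq
        refine ⟨q, mem_iInter.2 fun i => (hq i).1, ?_⟩
        obtain ⟨i⟩ : Nonempty c := inferInstance
        exact (hq i).2
      · intro s hs
        exact iInter_subset (fun i : c => (i : Set (Fin (r + 1) → K))) ⟨s, hs⟩) C hC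
  refine ⟨r, m, hmin.prop.1, hmin.prop.2.1, hmin.prop.2.2, ?_, ?_⟩
  · intro C' hC' hC'c hC'f
    exact Subset.antisymm hC' (hmin.2 ⟨hC'c, fun c hc => hmin.prop.2.1 c (hC' hc), hC'f⟩ hC')
  · rintro ⟨C', h1, h2, h3⟩
    exact hmax ⟨C', h1, h2, h3⟩

/-- TARGET 2 -/
theorem config_dichotomy {K Y : Type} [TopologicalSpace K] [CompactSpace K] [T2Space K]
    [ConnectedSpace K] [TopologicalSpace Y] [CompactSpace Y] [T2Space Y] [ConnectedSpace Y]
    (hY : Good Y)
    (u : K → Y) (hu : Continuous u) (hus : Function.Surjective u) (hl : LocInj u)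
    (hprop : ∀ C : Set K, Ctm C → C ≠ univ → InjOn u C) (hni : ¬ Function.Injective u) :
    ∃ (L : Type) (_ : TopologicalSpace L) (_ : CompactSpace L) (_ : T2Space L)
      (_ : ConnectedSpace L) (w : L → Y) (γ : L → L) (m : ℕ),
      Continuous w ∧ LocInj w ∧ (∀ C : Set L, Ctm C → C ≠ univ → InjOn w C) ∧ Continuous γ ∧
      2 ≤ m ∧ (∀ c, γ^[m] c = c) ∧ (∀ i, 0 < i → i < m → ∀ c, γ^[i] c ≠ c) := by
  classical
  obtain ⟨r, C, hC, hCi, hCf, hCmin, hCmax⟩ := exists_config u hu hus hl
  have hcs : CompactSpace C := isCompact_iff_compactSpace.1 hC.1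
  have hcn : ConnectedSpace C := isConnected_iff_connectedSpace.1 hC.2
  obtain ⟨w, hwdef⟩ : ∃ w : C → Y, ∀ c, w c = u (c.1 0) := ⟨fun c => u (c.1 0), fun _ => rfl⟩
  have hev : ∀ i, Continuous (fun c : C => c.1 i) := fun i =>
    (continuous_apply i).comp continuous_subtype_val
  have hw : Continuous w := by
    have : w = fun c : C => u (c.1 0) := funext hwdef
    rw [this]
    exact hu.comp (hev 0)
  have hws : Function.Surjective w := by
    intro y
    obtain ⟨c, hc, hcy⟩ := hCf y
    exact ⟨⟨c, hc⟩, by rw [hwdef]; exact hcy⟩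
  have hui : ∀ (c : C) i, u (c.1 i) = w c := by
    intro c i
    rw [hwdef, (hCi c.1 c.2).2 i]
  have hwl : LocInj w := by
    intro c
    choose U hU hUi using hl
    refine ⟨{c' : C | ∀ i, c'.1 i ∈ U (c.1 i)}, ?_, ?_⟩
    · have : ∀ᶠ c' in 𝓝 c, ∀ i, c'.1 i ∈ U (c.1 i) := by
        rw [eventually_all]
        intro i
        exact (hev i).continuousAt.eventually (hU (c.1 i))
      exact this
    · intro a ha b hb hab
      apply Subtype.ext
      funext i
      apply hUi (c.1 i) (ha i) (hb i)
      rw [hui, hui]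
      exact hab
  have huniv : ∀ R : Set C, Ctm R → (∀ y, ∃ c ∈ R, w c = y) → R = univ := by
    intro R hR hRf
    have h1 := hCmin (Subtype.val '' R) (by rintro _ ⟨c, _, rfl⟩; exact c.2) (ctm_image_val hR)
      (fun y => by
        obtain ⟨c, hc, hcy⟩ := hRf y
        exact ⟨c.1, ⟨c, hc, rfl⟩, by rw [← hwdef]; exact hcy⟩)
    apply eq_univ_of_forall
    intro c
    have : c.1 ∈ Subtype.val '' R := by rw [h1]; exact c.2
    obtain ⟨c', hc', hcc⟩ := this
    rw [← Subtype.ext hcc]
    exact hc'
  have hwp : ∀ R : Set C, Ctm R → R ≠ univ → InjOn w R := by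
    intro R hR hRne a ha b hb hab
    have hnf : ∃ y, ∀ c ∈ R, w c ≠ y := by
      by_contra hcon
      push Not at hcon
      exact hRne (huniv R hR hcon)
    obtain ⟨y, hy⟩ := hnf
    apply Subtype.ext
    funext i
    have h1 : Ctm ((fun c : C => c.1 i) '' R) := hR.image (hev i).continuousOn
    have h2 : ((fun c : C => c.1 i) '' R) ≠ univ := by
      intro h
      obtain ⟨k, hk⟩ := hus y
      have : k ∈ (fun c : C => c.1 i) '' R := by rw [h]; trivial
      obtain ⟨c, hc, hck⟩ := this
      apply hy c hc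
      rw [← hui c i, ← hk]
      exact congrArg u hck
    exact hprop _ h1 h2 ⟨a, ha, rfl⟩ ⟨b, hb, rfl⟩ (by
      show u (a.1 i) = u (b.1 i)
      rw [hui, hui]
      exact hab)
  by_cases hcase : ∀ C' ⊆ Off w, Ctm C' → w '' (Prod.fst '' C') ≠ univ
  · exfalso
    apply hni
    have hinj := inj_of_no_full hY w hw hws hwl hwp hcase
    let e : C ≃ₜ Y := Continuous.homeoOfEquivCompactToT2 (f := Equiv.ofBijective w ⟨hinj, hws⟩) hw
    apply injective_of_section u hu hl (fun y => (e.symm y).1 0)
      ((hev 0).comp e.symm.continuous)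
    intro y
    rw [hui]
    exact e.apply_symm_apply y
  push Not at hcase
  obtain ⟨C', hC'off, hC', hC'full⟩ := hcase
  have hfst : Prod.fst '' C' = univ := by
    apply huniv _ (hC'.image continuous_fst.continuousOn)
    intro y
    have : y ∈ w '' (Prod.fst '' C') := by rw [hC'full]; trivial
    obtain ⟨c, hc, hcy⟩ := this
    exact ⟨c, hc, hcy⟩
  have hw12 : ∀ p ∈ C', w p.1 = w p.2 := fun p hp => (hC'off hp).1
  have hkey : ∀ i j, (∀ p ∈ C', p.1.1 i = p.2.1 j) ∨ (∀ p ∈ C', p.1.1 i ≠ p.2.1 j) := by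
    intro i j
    by_contra hcon
    push Not at hcon
    obtain ⟨⟨p, hp, hp'⟩, ⟨q, hq, hq'⟩⟩ := hcon
    have hc1 : Continuous (fun p : C × C => p.1.1 i) := (hev i).comp continuous_fst
    have hc2 : Continuous (fun p : C × C => p.2.1 j) := (hev j).comp continuous_snd
    have ht : IsClosed {p : C × C | p.1.1 i = p.2.1 j} := isClosed_eq hc1 hc2
    have ht' : IsClosed ((fun p : C × C => (p.1.1 i, p.2.1 j)) ⁻¹' Off u) :=
      (isClosed_off u hu hl).preimage (hc1.prodMk hc2)
    have hpc := hC'.2.isPreconnected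
    rw [isPreconnected_closed_iff] at hpc
    obtain ⟨x, hx, hx1, hx2⟩ := hpc _ _ ht ht' (by
      intro x hx
      by_cases h : x.1.1 i = x.2.1 j
      · exact Or.inl h
      · right
        refine ⟨?_, h⟩
        show u (x.1.1 i) = u (x.2.1 j)
        rw [hui, hui, hw12 x hx]) ⟨q, hq, hq'⟩ ⟨p, hp, by
          refine ⟨?_, hp'⟩
          show u (p.1.1 i) = u (p.2.1 j)
          rw [hui, hui, hw12 p hp]⟩
    exact hx2.2 hx1
  have hnb : ∀ j, ∃ i, ∀ p ∈ C', p.1.1 i = p.2.1 j := by
    intro j
    by_contra hcon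
    push Not at hcon
    have hbad : ∀ i, ∀ p ∈ C', p.1.1 i ≠ p.2.1 j := by
      intro i
      rcases hkey i j with h | h
      · exfalso
        obtain ⟨p, hp, hp'⟩ := hcon i
        exact hp' (h p hp)
      · exact h
    apply hCmax
    have hcont : Continuous (fun p : C × C =>
        (Fin.snoc (α := fun _ => K) p.1.1 (p.2.1 j) : Fin (r + 2) → K)) := by
      apply continuous_pi
      intro i
      refine Fin.lastCases ?_ (fun i => ?_) i
      · simp only [Fin.snoc_last]
        exact (hev j).comp continuous_snd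
      · simp only [Fin.snoc_castSucc]
        exact (hev i).comp continuous_fst
    refine ⟨(fun p : C × C =>
        (Fin.snoc (α := fun _ => K) p.1.1 (p.2.1 j) : Fin (r + 2) → K)) '' C',
        hC'.image hcont.continuousOn, ?_, ?_⟩
    · rintro _ ⟨p, hp, rfl⟩
      constructor
      · intro a b
        refine Fin.lastCases ?_ (fun a => ?_) a
        · refine Fin.lastCases ?_ (fun b => ?_) b
          · intro _; rfl
          · simp only [Fin.snoc_last, Fin.snoc_castSucc]
            intro h
            exact absurd h.symm (hbad b p hp)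
        · refine Fin.lastCases ?_ (fun b => ?_) b
          · simp only [Fin.snoc_last, Fin.snoc_castSucc]
            intro h
            exact absurd h (hbad a p hp)
          · simp only [Fin.snoc_castSucc]
            intro h
            rw [(hCi p.1.1 p.1.2).1 h]
      · have hz : (Fin.snoc (α := fun _ => K) p.1.1 (p.2.1 j) : Fin (r + 2) → K) 0 = p.1.1 0 := by
          have : (0 : Fin (r + 2)) = Fin.castSucc 0 := rfl
          rw [this, Fin.snoc_castSucc]
        intro i
        show u ((Fin.snoc (α := fun _ => K) p.1.1 (p.2.1 j) : Fin (r + 2) → K) i) =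
          u ((Fin.snoc (α := fun _ => K) p.1.1 (p.2.1 j) : Fin (r + 2) → K) 0)
        rw [hz, hui]
        refine Fin.lastCases ?_ (fun i => ?_) i
        · rw [Fin.snoc_last, hui, hw12 p hp]
        · rw [Fin.snoc_castSucc, hui]
    · intro y
      have : y ∈ w '' (Prod.fst '' C') := by rw [hC'full]; trivial
      obtain ⟨c, ⟨p, hp, hpc⟩, hcy⟩ := this
      refine ⟨_, ⟨p, hp, rfl⟩, ?_⟩
      show u ((Fin.snoc (α := fun _ => K) p.1.1 (p.2.1 j) : Fin (r + 2) → K) 0) = y
      have : (0 : Fin (r + 2)) = Fin.castSucc 0 := rfl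
      rw [this, Fin.snoc_castSucc, hui, hpc, hcy]
  choose π hπ using hnb
  obtain ⟨p0, hp0⟩ := hC'.2.nonempty
  have hπi : Function.Injective π := by
    intro a b hab
    have h1 := hπ a p0 hp0
    have h2 := hπ b p0 hp0
    rw [hab] at h1
    exact (hCi p0.2.1 p0.2.2).1 (h1.symm.trans h2)
  let σ : Equiv.Perm (Fin (r + 1)) := Equiv.ofBijective π (Finite.injective_iff_bijective.1 hπi)
  have hσ : ∀ j, σ j = π j := fun _ => rfl
  have hmem : ∀ c : C, (c.1 ∘ σ) ∈ C := by
    intro c
    have : c ∈ Prod.fst '' C' := by rw [hfst]; trivial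
    obtain ⟨p, hp, hpc⟩ := this
    have h1 : c.1 ∘ σ = p.2.1 := by
      funext j
      rw [← hpc]
      exact hπ j p hp
    rw [h1]
    exact p.2.2
  let γ : C → C := fun c => ⟨c.1 ∘ σ, hmem c⟩
  have hγc : Continuous γ := by
    apply Continuous.subtype_mk
    apply continuous_pi
    intro j
    exact hev (σ j)
  have hiter : ∀ (i : ℕ) (c : C), (γ^[i] c).1 = c.1 ∘ (σ ^ i : Equiv.Perm (Fin (r + 1))) := by
    intro i
    induction i with
    | zero => intro c; simp
    | succ i ih =>
      intro c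
      rw [Function.iterate_succ_apply, ih]
      funext j
      show c.1 (σ ((σ ^ i) j)) = c.1 ((σ ^ (i + 1)) j)
      rw [pow_succ']
      rfl
  have hσ1 : σ ≠ 1 := by
    intro h
    apply (hC'off hp0).2
    apply Subtype.ext
    funext j
    have := hπ j p0 hp0
    rw [← hσ, h] at this
    exact this
  refine ⟨C, inferInstance, hcs, inferInstance, hcn, w, γ, orderOf σ, hw, hwl, hwp, hγc, ?_, ?_, ?_⟩
  · have h1 : orderOf σ ≠ 1 := fun h => hσ1 (orderOf_eq_one_iff.1 h)
    have h2 : 0 < orderOf σ := orderOf_pos σ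
    omega
  · intro c
    apply Subtype.ext
    rw [hiter, pow_orderOf_eq_one]
    rfl
  · intro i hi him c hc
    have h1 : σ ^ i ≠ 1 := fun h => by
      have := orderOf_le_of_pow_eq_one hi h
      omega
    apply h1
    apply Equiv.ext
    intro j
    apply (hCi c.1 c.2).1
    have h2 := hiter i c
    rw [hc] at h2
    exact (congrFun h2 j).symm

end Pool.Agent.H963CF.L648
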