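import Pool.Agent.H963CF.L648.T2
import Pool.Agent.H963CF.L648.T3
import Pool.Agent.H963CF.L648.T4
import Pool.Agent.H963CF.L648.F2
import Pool.Agent.H963CF.L648.F3
import Pool.Agent.H963CF.L648.F4
import Pool.Agent.H963CF.L648.Crux

set_option autoImplicit false

namespace Pool.Agent.H963CF.L648

open Set Topology Filter
open Pool.Agent.H963CF.L739.CT (Ctm HasLog SpanZero)
open Pool.Agent.H963CF.L739.CG (Good)

/-- the restriction of a map to a subset and its image -/
def restr {K Y : Type*} (u : K → Y) (D : Set K) : D → (u '' D) := fun d => ⟨u d, d, d.2, rfl⟩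

theorem restr_continuous {K Y : Type*} [TopologicalSpace K] [TopologicalSpace Y] {u : K → Y}
    (hu : Continuous u) (D : Set K) : Continuous (restr u D) :=
  Continuous.subtype_mk (hu.comp continuous_subtype_val) _

theorem restr_surjective {K Y : Type*} (u : K → Y) (D : Set K) :
    Function.Surjective (restr u D) := by
  rintro ⟨_, d, hd, rfl⟩
  exact ⟨⟨d, hd⟩, rfl⟩

theorem restr_locInj {K Y : Type*} [TopologicalSpace K] {u : K → Y}
    (hl : LocInj u) (D : Set K) : LocInj (restr u D) := by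
  intro k
  obtain ⟨U, hU, hUi⟩ := hl k
  refine ⟨(↑) ⁻¹' U, continuous_subtype_val.continuousAt.preimage_mem_nhds hU, ?_⟩
  intro a ha b hb hab
  exact Subtype.ext (hUi ha hb (congrArg Subtype.val hab))

theorem restr_prop {K Y : Type*} [TopologicalSpace K] {u : K → Y} {D : Set K}
    (hmin : ∀ D' ⊆ D, Ctm D' → D' ≠ D → InjOn u D') :
    ∀ C : Set D, Ctm C → C ≠ univ → InjOn (restr u D) C := by
  intro C hC hCu a ha b hb hab
  have h1 : Ctm ((↑) '' C : Set K) := ctm_image_val hC
  have h2 : ((↑) '' C : Set K) ⊆ D := by rintro _ ⟨y, -, rfl⟩; exact y.2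
  have h3 : ((↑) '' C : Set K) ≠ D := by
    intro h
    apply hCu
    rw [eq_univ_iff_forall]
    intro y
    have : (y : K) ∈ ((↑) '' C : Set K) := by rw [h]; exact y.2
    obtain ⟨z, hz, hzy⟩ := this
    rwa [← Subtype.ext hzy]
  exact Subtype.ext (hmin _ h2 h1 h3 ⟨a, ha, rfl⟩ ⟨b, hb, rfl⟩ (congrArg Subtype.val hab))

theorem restr_injective {K Y : Type*} {u : K → Y} {D : Set K}
    (h : Function.Injective (restr u D)) : InjOn u D := by
  intro a ha b hb hab
  have : (⟨a, ha⟩ : D) = ⟨b, hb⟩ := h (Subtype.ext hab)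
  exact congrArg Subtype.val this

/-- T6 -/
theorem rigid_of_spanZero (X : Type) [TopologicalSpace X] [CompactSpace X] [T2Space X]
    (hX : SpanZero X) : Rigid X := by
  intro K _ _ _ _ u hu hl
  by_contra hni
  obtain ⟨D, hD, hDni, hmin⟩ := exists_min_noninj u hu hl hni
  have hI : Ctm (u '' D) := hD.image hu.continuousOn
  have : CompactSpace D := isCompact_iff_compactSpace.1 hD.1
  have : ConnectedSpace D := isConnected_iff_connectedSpace.1 hD.2
  have : CompactSpace (u '' D) := isCompact_iff_compactSpace.1 hI.1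
  have : ConnectedSpace (u '' D) := isConnected_iff_connectedSpace.1 hI.2
  have hS : SpanZero (u '' D) := hX.subtype _
  have hcont := restr_continuous hu D
  have hsurj := restr_surjective u D
  have hloc := restr_locInj hl D
  apply hDni
  apply restr_injective
  apply inj_of_no_full (good_of_spanZero hS) (restr u D) hcont hsurj hloc (restr_prop hmin)
  apply no_full _ (restr u D) hcont hsurj (isClosed_off _ hcont hloc)
  intro Z hZ hZ1
  exact Pool.Agent.H963CF.L739.CT.semispan hS hZ (by rw [hZ1]; exact subset_univ _)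

/-- T7 -/
theorem rigid_of_confl (X Y : Type) [TopologicalSpace X] [CompactSpace X] [T2Space X]
    [TopologicalSpace Y] [CompactSpace Y] [T2Space Y]
    (hXr : Rigid X) (hXg : Good X) (hYg : Good Y) (f : X → Y)
    (hf : Continuous f) (hfs : Function.Surjective f) (hfc : Confl f) : Rigid Y := by
  intro K _ _ _ _ u hu hl
  by_contra hni
  obtain ⟨D, hD, hDni, hmin⟩ := exists_min_noninj u hu hl hni
  have hI : Ctm (u '' D) := hD.image hu.continuousOn
  have : CompactSpace D := isCompact_iff_compactSpace.1 hD.1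
  have : ConnectedSpace D := isConnected_iff_connectedSpace.1 hD.2
  have : CompactSpace (u '' D) := isCompact_iff_compactSpace.1 hI.1
  have : ConnectedSpace (u '' D) := isConnected_iff_connectedSpace.1 hI.2
  have hcont := restr_continuous hu D
  have hsurj := restr_surjective u D
  have hloc := restr_locInj hl D
  have hYg' : Good (u '' D) := Good.subtype hYg hI.1.isClosed
  have hni' : ¬ Function.Injective (restr u D) := fun h => hDni (restr_injective h)
  obtain ⟨y, hy⟩ := hI.2.nonempty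
  obtain ⟨x0, rfl⟩ := hfs y
  have hx0 : x0 ∈ f ⁻¹' (u '' D) := hy
  set A : Set X := connectedComponentIn (f ⁻¹' (u '' D)) x0 with hA
  have hAc : Ctm A :=
    Pool.Agent.H963CF.L739.CT.ctm_component (hI.1.isClosed.preimage hf).isCompact hx0
  have : CompactSpace A := isCompact_iff_compactSpace.1 hAc.1
  have : ConnectedSpace A := isConnected_iff_connectedSpace.1 hAc.2
  have hg := Confl.restrict hf hfc hI hx0
  have hgs : Function.Surjective
      (resMap (f := f) (connectedComponentIn_subset (f ⁻¹' (u '' D)) x0)) := by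
    rintro ⟨z, hz⟩
    have : z ∈ f '' A := by rw [hA, hfc _ hI x0 hx0]; exact hz
    obtain ⟨a, ha, rfl⟩ := this
    exact ⟨⟨a, ha⟩, rfl⟩
  have hgc : Continuous (resMap (f := f) (connectedComponentIn_subset (f ⁻¹' (u '' D)) x0)) :=
    Continuous.subtype_mk (hf.comp continuous_subtype_val) _
  obtain ⟨L, _, _, _, _, w, γ, m, hw, hwl, hwp, hγ, hm, hγm, hfree⟩ :=
    config_dichotomy hYg' (restr u D) hcont hsurj hloc (restr_prop hmin) hni'
  exact no_free_of_log hYg' w hw hwl γ hγ m hm hγm hfree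
    (fun φ hφ => log_of_lift (Rigid.subtype hXr A) (Good.subtype hXg hAc.1.isClosed) hYg' _ hgc hgs
      hg w hw hwl hwp φ hφ)

/-- pullbacks are connected -/
theorem pullback_connected {X Y K : Type} [TopologicalSpace X] [CompactSpace X] [T2Space X]
    [ConnectedSpace X] [TopologicalSpace Y] [CompactSpace Y] [T2Space Y] [TopologicalSpace K]
    [CompactSpace K] [T2Space K] [ConnectedSpace K] (hYg : Good Y) (hYr : Rigid Y) (f : X → Y)
    (hf : Continuous f) (hfs : Function.Surjective f) (hfc : Confl f) (u : K → Y)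
    (hu : Continuous u) (hus : Function.Surjective u) :
    IsConnected {p : K × X | u p.1 = f p.2} := by
  have hcl : IsClosed {p : K × X | u p.1 = f p.2} :=
    isClosed_eq (hu.comp continuous_fst) (hf.comp continuous_snd)
  refine ⟨?_, ?_⟩
  · obtain ⟨x⟩ := (inferInstance : Nonempty X)
    obtain ⟨k, hk⟩ := hus (f x)
    exact ⟨(k, x), hk⟩
  · rw [isPreconnected_closed_iff]
    intro t t' ht ht' hcov hn hn'
    by_contra hcon
    rw [not_nonempty_iff_eq_empty] at hcon
    set S : Set (K × X) := {p | u p.1 = f p.2} with hS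
    have key := crux hYg hYr f hf hfc u hu (S ∩ t) (S ∩ t') (hcl.inter ht) (hcl.inter ht')
      (by
        rw [disjoint_left]
        rintro p ⟨hp, hpt⟩ ⟨-, hpt'⟩
        have : p ∈ S ∩ (t ∩ t') := ⟨hp, hpt, hpt'⟩
        rw [hcon] at this
        exact this)
      (by
        intro k x
        constructor
        · intro h
          rcases hcov (show (k, x) ∈ S from h) with h' | h'
          · exact Or.inl ⟨h, h'⟩
          · exact Or.inr ⟨h, h'⟩
        · rintro (h | h)
          · exact h.1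
          · exact h.1)
    -- the projections to X
    have hA : IsClosed (Prod.snd '' (S ∩ t)) :=
      ((hcl.inter ht).isCompact.image continuous_snd).isClosed
    have hB : IsClosed (Prod.snd '' (S ∩ t')) :=
      ((hcl.inter ht').isCompact.image continuous_snd).isClosed
    have hpc : IsPreconnected (univ : Set X) := isPreconnected_univ
    rw [isPreconnected_closed_iff] at hpc
    obtain ⟨x, -, ⟨⟨k, x1⟩, hk, rfl⟩, ⟨⟨k', x2⟩, hk', hx⟩⟩ := hpc _ _ hA hB
      (by
        intro x _
        obtain ⟨k, hk⟩ := hus (f x)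
        rcases hcov (show (k, x) ∈ S from hk) with h' | h'
        · exact Or.inl ⟨(k, x), ⟨hk, h'⟩, rfl⟩
        · exact Or.inr ⟨(k, x), ⟨hk, h'⟩, rfl⟩)
      (by obtain ⟨p, hp, hpt⟩ := hn; exact ⟨p.2, mem_univ _, p, ⟨hp, hpt⟩, rfl⟩)
      (by obtain ⟨p, hp, hpt⟩ := hn'; exact ⟨p.2, mem_univ _, p, ⟨hp, hpt⟩, rfl⟩)
    simp only at hx
    subst hx
    have e1 : u k = f x2 := hk.1
    have e2 : u k' = f x2 := hk'.1
    have := key k k' x2 hk (e2.trans e1.symm)
    have h3 : (k', x2) ∈ S ∩ (t ∩ t') := ⟨hk'.1, this.2, hk'.2⟩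
    rw [hcon] at h3
    exact h3


theorem span_transfer (X Y : Type) [TopologicalSpace X] [CompactSpace X] [T2Space X]
    [ConnectedSpace X] [TopologicalSpace Y] [CompactSpace Y] [T2Space Y]
    (hX : SpanZero X) (f : X → Y) (hf : Continuous f) (hfs : Function.Surjective f)
    (hfc : Confl f) (Z : Set (Y × Y)) (hZ : Ctm Z) (h1 : Prod.fst '' Z = univ)
    (h2 : Prod.snd '' Z = univ) : ∃ p ∈ Z, p.1 = p.2 := by
  have hXg : Good X := good_of_spanZero hX
  have hYg : Good Y := good_of_confl hXg f hf hfs hfc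
  have hYr : Rigid Y := rigid_of_confl X Y (rigid_of_spanZero X hX) hXg hYg f hf hfs hfc
  have : CompactSpace Z := isCompact_iff_compactSpace.1 hZ.1
  have : ConnectedSpace Z := isConnected_iff_connectedSpace.1 hZ.2
  set W1 : Set (Z × X) := {p | (p.1 : Y × Y).1 = f p.2} with hW1
  have u0 : Continuous (fun z : Z => (z : Y × Y).1) := continuous_fst.comp continuous_subtype_val
  have hW1c : IsConnected W1 := pullback_connected hYg hYr f hf hfs hfc
    (fun z : Z => (z : Y × Y).1) u0 (by
      intro y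
      have : y ∈ Prod.fst '' Z := by rw [h1]; exact mem_univ y
      obtain ⟨z, hz, rfl⟩ := this
      exact ⟨⟨z, hz⟩, rfl⟩)
  have hW1cl : IsClosed W1 := isClosed_eq (u0.comp continuous_fst) (hf.comp continuous_snd)
  have : CompactSpace W1 := isCompact_iff_compactSpace.1 hW1cl.isCompact
  have : ConnectedSpace W1 := isConnected_iff_connectedSpace.1 hW1c
  set u1 : W1 → Y := fun w => ((w : Z × X).1 : Y × Y).2 with hu1
  have hu1c : Continuous u1 := continuous_snd.comp
    (continuous_subtype_val.comp (continuous_fst.comp continuous_subtype_val))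
  set W2 : Set (W1 × X) := {p | u1 p.1 = f p.2} with hW2
  have hW2c : IsConnected W2 := pullback_connected hYg hYr f hf hfs hfc u1 hu1c (by
      intro y
      have : y ∈ Prod.snd '' Z := by rw [h2]; exact mem_univ y
      obtain ⟨z, hz, rfl⟩ := this
      obtain ⟨x, hx⟩ := hfs z.1
      exact ⟨⟨(⟨z, hz⟩, x), hx.symm⟩, rfl⟩)
  have hW2cl : IsClosed W2 := isClosed_eq (hu1c.comp continuous_fst) (hf.comp continuous_snd)
  set m : W1 × X → X × X := fun p => ((p.1 : Z × X).2, p.2) with hm
  have hmc : Continuous m :=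
    (continuous_snd.comp (continuous_subtype_val.comp continuous_fst)).prodMk continuous_snd
  obtain ⟨p, hp, hpe⟩ := hX (m '' W2) (hW2cl.isCompact.image hmc) (hW2c.image m hmc.continuousOn)
    (by
      have e1 : Prod.fst '' (m '' W2) = univ := by
        rw [eq_univ_iff_forall]
        intro x
        have : f x ∈ Prod.fst '' Z := by rw [h1]; exact mem_univ _
        obtain ⟨z, hz, hzx⟩ := this
        obtain ⟨x', hx'⟩ := hfs z.2
        exact ⟨(x, x'), ⟨(⟨(⟨z, hz⟩, x), hzx⟩, x'), hx'.symm, rfl⟩, rfl⟩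
      have e2 : Prod.snd '' (m '' W2) = univ := by
        rw [eq_univ_iff_forall]
        intro x'
        have : f x' ∈ Prod.snd '' Z := by rw [h2]; exact mem_univ _
        obtain ⟨z, hz, hzx⟩ := this
        obtain ⟨x, hx⟩ := hfs z.1
        exact ⟨(x, x'), ⟨(⟨(⟨z, hz⟩, x), hx.symm⟩, x'), hzx, rfl⟩, rfl⟩
      rw [e1, e2])
  obtain ⟨⟨w, x'⟩, hw, rfl⟩ := hp
  obtain ⟨⟨z, x⟩, hzx⟩ := w
  simp only [hm] at hpe
  subst hpe
  refine ⟨z, z.2, ?_⟩
  have k1 : (z : Y × Y).1 = f x := hzx
  have k2 : (z : Y × Y).2 = f x := hw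
  rw [k1, k2]

theorem span_confluent (X Y : Type) [TopologicalSpace X] [CompactSpace X] [T2Space X]
    [TopologicalSpace Y] [CompactSpace Y] [T2Space Y]
    (hX : SpanZero X) (f : X → Y) (hf : Continuous f) (hfs : Function.Surjective f)
    (hfc : Confl f) (Z : Set (Y × Y)) (hZ : Ctm Z) (h : Prod.fst '' Z = Prod.snd '' Z) :
    ∃ p ∈ Z, p.1 = p.2 := by
  set Q : Set Y := Prod.fst '' Z with hQ
  have hQc : Ctm Q := hZ.image continuous_fst.continuousOn
  obtain ⟨q, hq⟩ := hQc.2.nonempty
  obtain ⟨x0, rfl⟩ := hfs q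
  set A : Set X := connectedComponentIn (f ⁻¹' Q) x0 with hA
  have hx0 : x0 ∈ f ⁻¹' Q := hq
  have hAc : Ctm A :=
    Pool.Agent.H963CF.L739.CT.ctm_component (hQc.1.isClosed.preimage hf).isCompact hx0
  have hg := Confl.restrict hf hfc hQc hx0
  have : CompactSpace A := isCompact_iff_compactSpace.1 hAc.1
  have : ConnectedSpace A := isConnected_iff_connectedSpace.1 hAc.2
  have : CompactSpace Q := isCompact_iff_compactSpace.1 hQc.1
  set Z' : Set (Q × Q) := Prod.map Subtype.val Subtype.val ⁻¹' Z with hZ'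
  have hcont : Continuous (Prod.map Subtype.val Subtype.val : Q × Q → Y × Y) :=
    continuous_subtype_val.prodMap continuous_subtype_val
  have hZr : Z ⊆ range (Prod.map Subtype.val Subtype.val : Q × Q → Y × Y) := by
    intro z hz
    exact ⟨(⟨z.1, z, hz, rfl⟩, ⟨z.2, by rw [h]; exact ⟨z, hz, rfl⟩⟩), rfl⟩
  have hind : IsInducing (Prod.map Subtype.val Subtype.val : Q × Q → Y × Y) :=
    IsInducing.subtypeVal.prodMap IsInducing.subtypeVal
  have hZ'c : Ctm Z' := by
    refine ⟨(hZ.1.isClosed.preimage hcont).isCompact, ?_, ?_⟩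
    · obtain ⟨w, hw⟩ := hZ.2.nonempty
      obtain ⟨p, rfl⟩ := hZr hw
      exact ⟨p, hw⟩
    · rw [← hind.isPreconnected_image, image_preimage_eq_of_subset hZr]
      exact hZ.2.isPreconnected
  obtain ⟨p, hp, hpe⟩ := span_transfer A Q (hX.subtype A)
    (resMap (f := f) (connectedComponentIn_subset (f ⁻¹' Q) x0))
    (Continuous.subtype_mk (hf.comp continuous_subtype_val) _)
    (by
      rintro ⟨y, hy⟩
      have : y ∈ f '' A := by rw [hA, hfc Q hQc x0 hx0]; exact hy
      obtain ⟨a, ha, rfl⟩ := this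
      exact ⟨⟨a, ha⟩, rfl⟩)
    hg Z' hZ'c
    (by
      rw [eq_univ_iff_forall]
      rintro ⟨_, ⟨z, hz, rfl⟩⟩
      exact ⟨(⟨z.1, z, hz, rfl⟩, ⟨z.2, by rw [h]; exact ⟨z, hz, rfl⟩⟩), hz, rfl⟩)
    (by
      rw [eq_univ_iff_forall]
      rintro ⟨y, hy⟩
      have hy' := hy
      rw [h] at hy'
      obtain ⟨z, hz, rfl⟩ := hy'
      exact ⟨(⟨z.1, z, hz, rfl⟩, ⟨z.2, hy⟩), hz, rfl⟩)
  exact ⟨_, hp, congrArg Subtype.val hpe⟩

theorem final (X Y : Type) [MetricSpace X] [CompactSpace X] [ConnectedSpace X]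
      [MetricSpace Y] [CompactSpace Y] [ConnectedSpace Y] (f : X → Y) (hf : Continuous f)
      (hfs : Function.Surjective f)
      (hfc : ∀ K : Set Y, IsClosed K → IsConnected K →
        ∀ x ∈ f ⁻¹' K, f '' connectedComponentIn (f ⁻¹' K) x = K)
      (hX : ∀ Z : Set (X × X), IsClosed Z → IsConnected Z →
        Prod.fst '' Z = Prod.snd '' Z → ∃ x : X, (x, x) ∈ Z) :
      (∀ Z : Set (Y × Y), IsClosed Z → IsConnected Z →
        Prod.fst '' Z = Prod.snd '' Z → ∃ y : Y, (y, y) ∈ Z) := by
  intro Z hZ hZc he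
  obtain ⟨p, hp, hpe⟩ := span_confluent X Y (fun W hW hWc hWe => by
    obtain ⟨x, hx⟩ := hX W hW.isClosed hWc hWe
    exact ⟨(x, x), hx, rfl⟩) f hf hfs (fun Q hQ x hx => hfc Q hQ.1.isClosed hQ.2 x hx) Z
    ⟨hZ.isCompact, hZc⟩ he
  refine ⟨p.1, ?_⟩
  have : p = (p.1, p.1) := by ext <;> simp [hpe]
  rwa [this] at hp

end Pool.Agent.H963CF.L648
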