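import Pool.Agent.H963CF.L648.CruxDefs

set_option autoImplicit false

namespace Pool.Agent.H963CF.L648

open Set Topology Filter
open Pool.Agent.H963CF.L739.CT (Ctm HasLog SpanZero ctm_union ctm_component clopen_nhd_component
  cutwire bump ctm_iInter_directed)
open Pool.Agent.H963CF.L739.CG (Good)

section

variable {K Y : Type*} [TopologicalSpace K] [CompactSpace K] [T2Space K]
  [TopologicalSpace Y] [CompactSpace Y] [T2Space Y]

/-- near component lemma -/
theorem near_component (u : K → Y) (hu : Continuous u) {C : Set Y} (hC : IsClosed C) {k : K}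
    (hk : u k ∈ C) {N : Set Y} (hN : IsOpen N)
    (hsub : u '' connectedComponentIn (u ⁻¹' C) k ⊆ N) :
    ∃ W : Set Y, IsOpen W ∧ C ⊆ W ∧ ∀ W' : Set Y, W' ⊆ closure W → u k ∈ W' →
      u '' connectedComponentIn (u ⁻¹' W') k ⊆ N := by
  have hΦ : IsCompact (u ⁻¹' C) := (hC.preimage hu).isCompact
  have hB : IsClosed (u ⁻¹' Nᶜ) := hN.isClosed_compl.preimage hu
  obtain ⟨P, Q, hP, hQ, hPQ, hd, hkP, hBQ⟩ := clopen_nhd_component hΦ
    (show k ∈ u ⁻¹' C from hk) hB (by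
      rw [eq_empty_iff_forall_notMem]
      rintro x ⟨hx, hx'⟩
      exact hx' (hsub ⟨x, hx, rfl⟩))
  have hPB : Disjoint P (Q ∪ u ⁻¹' Nᶜ) := by
    rw [disjoint_left] at hd ⊢
    rintro x hx (hx' | hx')
    · exact hd hx hx'
    · exact hd hx (hBQ ⟨by rw [← hPQ]; exact Or.inl hx, hx'⟩)
  obtain ⟨OP, OQ, hOP, hOQ, hPOP, hQOQ, hdis⟩ := normal_separation
    hP.isClosed (hQ.isClosed.union hB) hPB
  have hE : IsClosed (OP ∪ OQ)ᶜ := (hOP.union hOQ).isClosed_compl
  have huE : IsClosed (u '' (OP ∪ OQ)ᶜ) := (hE.isCompact.image hu).isClosed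
  obtain ⟨W, hW, hCW, hWc⟩ := normal_exists_closure_subset hC huE.isOpen_compl (by
    intro y hy ⟨x, hx, hxy⟩
    apply hx
    have : x ∈ u ⁻¹' C := by rw [mem_preimage, hxy]; exact hy
    rw [← hPQ] at this
    rcases this with h | h
    · exact Or.inl (hPOP h)
    · exact Or.inr (hQOQ (Or.inl h)))
  refine ⟨W, hW, hCW, ?_⟩
  intro W' hW' hkW'
  have h1 : connectedComponentIn (u ⁻¹' W') k ⊆ OP ∪ OQ := by
    intro x hx
    by_contra hx'
    have h2 : x ∈ u ⁻¹' W' := connectedComponentIn_subset _ _ hx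
    exact hWc (hW' h2) ⟨x, hx', rfl⟩
  have h2 : connectedComponentIn (u ⁻¹' W') k ⊆ OP := by
    apply isPreconnected_connectedComponentIn.subset_left_of_subset_union hOP hOQ hdis h1
    exact ⟨k, mem_connectedComponentIn hkW', hPOP (hkP (mem_connectedComponentIn hk))⟩
  rintro _ ⟨x, hx, rfl⟩
  by_contra hxN
  exact (disjoint_left.1 hdis (h2 hx)) (hQOQ (Or.inr hxN))

omit [CompactSpace Y] [T2Space Y] in
theorem comp_exits [ConnectedSpace K] (u : K → Y) (hu : Continuous u) {W : Set Y} (hW : IsOpen W)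
    (h0 : ∃ k0, u k0 ∉ closure W) {k : K} (hk : u k ∈ closure W) :
    ∃ l ∈ connectedComponentIn (u ⁻¹' closure W) k, u l ∉ W := by
  obtain ⟨k0, hk0⟩ := h0
  have hO : IsOpen (u ⁻¹' (closure W)ᶜ) := isClosed_closure.isOpen_compl.preimage hu
  have hu1 : Ctm (univ : Set K) := ⟨isCompact_univ, isConnected_univ⟩
  obtain ⟨l, hl, hl'⟩ := bump hu1 hO ⟨k0, mem_univ _, hk0⟩ (mem_univ k) (fun h => h hk)
  have he : (univ : Set K) \ u ⁻¹' (closure W)ᶜ = u ⁻¹' closure W := by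
    ext x; simp
  rw [he] at hl
  refine ⟨l, hl, ?_⟩
  intro hlW
  have h1 : closure (u ⁻¹' (closure W)ᶜ) ⊆ u ⁻¹' Wᶜ := by
    apply closure_minimal
    · intro x hx hxW
      exact hx (subset_closure hxW)
    · exact hW.isClosed_compl.preimage hu
  exact h1 hl' hlW

theorem no_three_comp [ConnectedSpace K] (hY : Good Y) (u : K → Y) (hu : Continuous u) {C : Set Y}
    (hC : Ctm C) (hC1 : ∃ k0, u k0 ∉ C) {k1 k2 k3 : K} (h1 : u k1 ∈ C) (h2 : u k2 ∈ C)
    (h3 : u k3 ∈ C)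
    (d12 : Disjoint (u '' connectedComponentIn (u ⁻¹' C) k1) (u '' connectedComponentIn (u ⁻¹' C) k2))
    (d13 : Disjoint (u '' connectedComponentIn (u ⁻¹' C) k1) (u '' connectedComponentIn (u ⁻¹' C) k3))
    (d23 : Disjoint (u '' connectedComponentIn (u ⁻¹' C) k2) (u '' connectedComponentIn (u ⁻¹' C) k3)) :
    False := by
  obtain ⟨k0, hk0⟩ := hC1
  have hΦ : IsCompact (u ⁻¹' C) := (hC.1.isClosed.preimage hu).isCompact
  have hcl : ∀ k, u k ∈ C → IsClosed (u '' connectedComponentIn (u ⁻¹' C) k) := fun k hk =>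
    ((ctm_component hΦ (show k ∈ u ⁻¹' C from hk)).1.image hu).isClosed
  obtain ⟨U12, V12, oU12, oV12, hU12, hV12, e12⟩ := normal_separation (hcl k1 h1) (hcl k2 h2) d12
  obtain ⟨U13, V13, oU13, oV13, hU13, hV13, e13⟩ := normal_separation (hcl k1 h1) (hcl k3 h3) d13
  obtain ⟨U23, V23, oU23, oV23, hU23, hV23, e23⟩ := normal_separation (hcl k2 h2) (hcl k3 h3) d23
  obtain ⟨W1, oW1, hW1, hW1'⟩ := near_component u hu hC.1.isClosed h1 (oU12.inter oU13)
    (subset_inter hU12 hU13)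
  obtain ⟨W2, oW2, hW2, hW2'⟩ := near_component u hu hC.1.isClosed h2 (oV12.inter oU23)
    (subset_inter hV12 hU23)
  obtain ⟨W3, oW3, hW3, hW3'⟩ := near_component u hu hC.1.isClosed h3 (oV13.inter oV23)
    (subset_inter hV13 hV23)
  obtain ⟨W0, oW0, hW0, hW0'⟩ := normal_exists_closure_subset hC.1.isClosed
    (isOpen_compl_singleton (x := u k0)) (by
      intro y hy hyk
      rw [mem_singleton_iff] at hyk
      rw [hyk] at hy
      exact hk0 hy)
  set W : Set Y := W0 ∩ (W1 ∩ (W2 ∩ W3)) with hW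
  have oW : IsOpen W := oW0.inter (oW1.inter (oW2.inter oW3))
  have hCW : C ⊆ W := subset_inter hW0 (subset_inter hW1 (subset_inter hW2 hW3))
  have c0 : closure W ⊆ closure W0 := closure_mono inter_subset_left
  have c1 : closure W ⊆ closure W1 := closure_mono fun x hx => hx.2.1
  have c2 : closure W ⊆ closure W2 := closure_mono fun x hx => hx.2.2.1
  have c3 : closure W ⊆ closure W3 := closure_mono fun x hx => hx.2.2.2
  have hex : ∃ k0, u k0 ∉ closure W := ⟨k0, fun h => hW0' (c0 h) rfl⟩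
  have m1 : u k1 ∈ closure W := subset_closure (hCW h1)
  have m2 : u k2 ∈ closure W := subset_closure (hCW h2)
  have m3 : u k3 ∈ closure W := subset_closure (hCW h3)
  have n1 := hW1' (closure W) c1 m1
  have n2 := hW2' (closure W) c2 m2
  have n3 := hW3' (closure W) c3 m3
  obtain ⟨l1, hl1, hl1'⟩ := comp_exits u hu oW hex m1
  obtain ⟨l2, hl2, hl2'⟩ := comp_exits u hu oW hex m2
  obtain ⟨l3, hl3, hl3'⟩ := comp_exits u hu oW hex m3
  have hΨ : IsCompact (u ⁻¹' closure W) := (isClosed_closure.preimage hu).isCompact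
  have hctm : ∀ k, u k ∈ C → Ctm (C ∪ u '' connectedComponentIn (u ⁻¹' closure W) k) := by
    intro k hk
    have hk' : u k ∈ closure W := subset_closure (hCW hk)
    refine ctm_union hC ((ctm_component hΨ (show k ∈ u ⁻¹' closure W from hk')).image
      hu.continuousOn) ⟨u k, hk, k, mem_connectedComponentIn hk', rfl⟩
  rw [disjoint_left] at e12 e13 e23
  rcases hY.atri (hctm k1 h1) (hctm k2 h2) (hctm k3 h3) ⟨u k1, ⟨Or.inl h1, Or.inl h1⟩, Or.inl h1⟩
    with h | h | h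
  · have p1 : u l1 ∈ C ∪ u '' connectedComponentIn (u ⁻¹' closure W) k1 := Or.inr ⟨l1, hl1, rfl⟩
    have q1 := n1 ⟨l1, hl1, rfl⟩
    rcases h p1 with (p | p) | (p | p)
    · exact hl1' (hCW p)
    · exact e12 q1.1 (n2 p).1
    · exact hl1' (hCW p)
    · exact e13 q1.2 (n3 p).1
  · have p1 : u l2 ∈ C ∪ u '' connectedComponentIn (u ⁻¹' closure W) k2 := Or.inr ⟨l2, hl2, rfl⟩
    have q1 := n2 ⟨l2, hl2, rfl⟩
    rcases h p1 with (p | p) | (p | p)
    · exact hl2' (hCW p)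
    · exact e12 (n1 p).1 q1.1
    · exact hl2' (hCW p)
    · exact e23 q1.2 (n3 p).2
  · have p1 : u l3 ∈ C ∪ u '' connectedComponentIn (u ⁻¹' closure W) k3 := Or.inr ⟨l3, hl3, rfl⟩
    have q1 := n3 ⟨l3, hl3, rfl⟩
    rcases h p1 with (p | p) | (p | p)
    · exact hl3' (hCW p)
    · exact e13 (n1 p).2 q1.1
    · exact hl3' (hCW p)
    · exact e23 (n2 p).2 q1.2

theorem comp_meets [ConnectedSpace K] (hY : Good Y) (u : K → Y) (hu : Continuous u) {C : Set Y}
    (hC : Ctm C) (hC1 : ∃ k0, u k0 ∉ C) {k : K} (hk : u k ∈ C) :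
    ∃ U ∈ 𝓝 k, ∀ k' ∈ U, u k' ∈ C → (u '' connectedComponentIn (u ⁻¹' C) k' ∩
      u '' connectedComponentIn (u ⁻¹' C) k).Nonempty := by
  by_contra hcon
  push Not at hcon
  obtain ⟨k', -, hk', hd⟩ := hcon univ univ_mem
  have hΦ : IsCompact (u ⁻¹' C) := (hC.1.isClosed.preimage hu).isCompact
  have hB : IsClosed (u ⁻¹' (u '' connectedComponentIn (u ⁻¹' C) k')) :=
    (((ctm_component hΦ (show k' ∈ u ⁻¹' C from hk')).1.image hu).isClosed).preimage hu
  obtain ⟨P, Q, hP, hQ, hPQ, hdis, hkP, hBQ⟩ := clopen_nhd_component hΦ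
    (show k ∈ u ⁻¹' C from hk) hB (by
      rw [eq_empty_iff_forall_notMem]
      rintro x ⟨hx, hx'⟩
      have : u x ∈ u '' connectedComponentIn (u ⁻¹' C) k' ∩ u '' connectedComponentIn (u ⁻¹' C) k :=
        ⟨hx', x, hx, rfl⟩
      rw [hd] at this
      exact this)
  have hkP' : k ∈ P := hkP (mem_connectedComponentIn hk)
  obtain ⟨k'', hk''U, hk'', hd''⟩ := hcon Qᶜ
    (hQ.isClosed.isOpen_compl.mem_nhds (disjoint_left.1 hdis hkP'))
  have hk''P : k'' ∈ P := by
    have : k'' ∈ P ∪ Q := by rw [hPQ]; exact hk''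
    exact this.resolve_right hk''U
  have hsub : connectedComponentIn (u ⁻¹' C) k'' ⊆ P := by
    apply Pool.Agent.H963CF.L739.CT.sub_of_split hP.isClosed hQ.isClosed hdis
      isPreconnected_connectedComponentIn
    · rw [hPQ]; exact connectedComponentIn_subset _ _
    · exact ⟨k'', mem_connectedComponentIn hk'', hk''P⟩
  refine no_three_comp hY u hu hC hC1 hk hk' hk'' ?_ ?_ ?_
  · rw [disjoint_comm, disjoint_iff_inter_eq_empty]; exact hd
  · rw [disjoint_comm, disjoint_iff_inter_eq_empty]; exact hd''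
  · rw [disjoint_left]
    rintro _ hy ⟨x, hx, rfl⟩
    have hxP : x ∈ P := hsub hx
    have hxΦ : x ∈ u ⁻¹' C := connectedComponentIn_subset _ _ hx
    exact disjoint_left.1 hdis hxP (hBQ ⟨hxΦ, hy⟩)

omit [CompactSpace Y] [T2Space Y] in
/-- the component relation is closed -/
theorem isClosed_comp {Φ : Set K} (hΦ : IsClosed Φ) :
    IsClosed {p : K × K | p.1 ∈ Φ ∧ p.2 ∈ connectedComponentIn Φ p.1} := by
  rw [← isOpen_compl_iff, isOpen_iff_mem_nhds]
  rintro ⟨a, b⟩ hab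
  by_cases ha : a ∈ Φ
  · have hb : b ∉ connectedComponentIn Φ a := fun h => hab ⟨ha, h⟩
    obtain ⟨P, Q, hP, hQ, hPQ, hdis, haP, hBQ⟩ := clopen_nhd_component hΦ.isCompact ha
      (isClosed_singleton (x := b)) (by
        rw [eq_empty_iff_forall_notMem]
        rintro x ⟨hx, hx'⟩
        rw [mem_singleton_iff] at hx'
        rw [hx'] at hx
        exact hb hx)
    have ha' : a ∈ P := haP (mem_connectedComponentIn ha)
    have hb' : b ∉ P := fun h => disjoint_left.1 hdis h (hBQ ⟨by rw [← hPQ]; exact Or.inl h, rfl⟩)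
    have h1 : Qᶜ ×ˢ Pᶜ ∈ 𝓝 (a, b) := prod_mem_nhds
      (hQ.isClosed.isOpen_compl.mem_nhds (disjoint_left.1 hdis ha'))
      (hP.isClosed.isOpen_compl.mem_nhds hb')
    refine mem_of_superset h1 ?_
    rintro ⟨c, d⟩ ⟨hc, hd⟩ ⟨hcΦ, hdc⟩
    simp only at hc hd hcΦ hdc
    have hcP : c ∈ P := by
      rw [← hPQ] at hcΦ; exact hcΦ.resolve_right hc
    have hsub : connectedComponentIn Φ c ⊆ P := by
      apply Pool.Agent.H963CF.L739.CT.sub_of_split hP.isClosed hQ.isClosed hdis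
        isPreconnected_connectedComponentIn
      · rw [hPQ]; exact connectedComponentIn_subset _ _
      · exact ⟨c, mem_connectedComponentIn hcΦ, hcP⟩
    exact hd (hsub hdc)
  · have h1 : Φᶜ ×ˢ (univ : Set K) ∈ 𝓝 (a, b) := prod_mem_nhds
      (hΦ.isOpen_compl.mem_nhds ha) univ_mem
    refine mem_of_superset h1 ?_
    rintro ⟨c, d⟩ ⟨hc, -⟩ ⟨hcΦ, -⟩
    exact hc hcΦ

omit [T2Space Y] [CompactSpace Y] in
theorem DisData.cons_comp [T2Space Y] [ConnectedSpace K] {u : K → Y} (hu : Continuous u)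
    {D : Set (K × K)} (hD : DisData u D) {C : Set Y} (hC : IsClosed C) (hC1 : ∃ k0, u k0 ∉ C)
    {k : K} (hk : u k ∈ C) : Cons D (connectedComponentIn (u ⁻¹' C) k) := by
  obtain ⟨k0, hk0⟩ := hC1
  refine hD.prop _ (ctm_component (hC.preimage hu).isCompact hk) ?_
  intro h
  have : k0 ∈ connectedComponentIn (u ⁻¹' C) k := by rw [h]; exact mem_univ _
  have h2 : k0 ∈ u ⁻¹' C := connectedComponentIn_subset _ _ this
  exact hk0 h2

/-- the relation of lying in a common consistent set over C -/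
def Rel (u : K → Y) (D : Set (K × K)) (C : Set Y) (a b : K) : Prop :=
  ∃ S : Set K, IsClosed S ∧ S ⊆ u ⁻¹' C ∧ Ctm (u '' S) ∧ Cons D S ∧ a ∈ S ∧ b ∈ S

omit [CompactSpace K] [T2Space K] [CompactSpace Y] [T2Space Y] in
theorem Rel.symm {u : K → Y} {D : Set (K × K)} {C : Set Y} {a b : K} (h : Rel u D C a b) :
    Rel u D C b a := by
  obtain ⟨S, h1, h2, h3, h4, h5, h6⟩ := h
  exact ⟨S, h1, h2, h3, h4, h6, h5⟩

omit [CompactSpace K] [T2Space K] [CompactSpace Y] [T2Space Y] in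
theorem Rel.trans {u : K → Y} {D : Set (K × K)} (hD : DisData u D) {C : Set Y} {a b c : K}
    (h : Rel u D C a b) (h' : Rel u D C b c) : Rel u D C a c := by
  obtain ⟨S, h1, h2, h3, h4, h5, h6⟩ := h
  obtain ⟨S', h1', h2', h3', h4', h5', h6'⟩ := h'
  refine ⟨S ∪ S', h1.union h1', union_subset h2 h2', ?_,
    hD.merge S S' h1 h1' h3 h3' h4 h4' b h6 b h5' rfl (hD.refl b), Or.inl h5, Or.inr h6'⟩
  rw [image_union]
  exact ctm_union h3 h3' ⟨u b, ⟨b, h6, rfl⟩, b, h5', rfl⟩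

omit [CompactSpace Y] in
theorem rel_of_comp [ConnectedSpace K] {u : K → Y} (hu : Continuous u) {D : Set (K × K)}
    (hD : DisData u D) {C : Set Y} (hC : IsClosed C) (hC1 : ∃ k0, u k0 ∉ C) {k k' a b : K}
    (hk : u k ∈ C) (hk' : u k' ∈ C) (ha : a ∈ connectedComponentIn (u ⁻¹' C) k)
    (hb : b ∈ connectedComponentIn (u ⁻¹' C) k') (hab : u a = u b) (hD' : (a, b) ∉ D) :
    Rel u D C k k' := by
  have c1 := ctm_component (hC.preimage hu).isCompact (show k ∈ u ⁻¹' C from hk)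
  have c2 := ctm_component (hC.preimage hu).isCompact (show k' ∈ u ⁻¹' C from hk')
  refine ⟨connectedComponentIn (u ⁻¹' C) k ∪ connectedComponentIn (u ⁻¹' C) k',
    c1.1.isClosed.union c2.1.isClosed,
    union_subset (connectedComponentIn_subset _ _) (connectedComponentIn_subset _ _), ?_,
    hD.merge _ _ c1.1.isClosed c2.1.isClosed (c1.image hu.continuousOn) (c2.image hu.continuousOn)
      (hD.cons_comp hu hC hC1 hk) (hD.cons_comp hu hC hC1 hk') a ha b hb hab hD',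
    Or.inl (mem_connectedComponentIn hk), Or.inr (mem_connectedComponentIn hk')⟩
  rw [image_union]
  exact ctm_union (c1.image hu.continuousOn) (c2.image hu.continuousOn)
    ⟨u a, ⟨a, ha, rfl⟩, b, hb, hab.symm⟩

theorem rel_open [ConnectedSpace K] (hY : Good Y) {u : K → Y} (hu : Continuous u)
    {D : Set (K × K)} (hD : DisData u D) {C : Set Y} (hC : Ctm C) (hC1 : ∃ k0, u k0 ∉ C) {k : K}
    (hk : u k ∈ C) : ∃ U ∈ 𝓝 k, ∀ k' ∈ U, u k' ∈ C → Rel u D C k k' := by
  obtain ⟨U, hU, hU'⟩ := comp_meets hY u hu hC hC1 hk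
  have hΦ : IsClosed (u ⁻¹' C) := hC.1.isClosed.preimage hu
  have hΛ : IsClosed (connectedComponentIn (u ⁻¹' C) k) :=
    (ctm_component hΦ.isCompact (show k ∈ u ⁻¹' C from hk)).1.isClosed
  set B : Set (K × (K × K)) := {p | (p.1 ∈ u ⁻¹' C ∧ p.2.1 ∈ connectedComponentIn (u ⁻¹' C) p.1) ∧
    p.2.2 ∈ connectedComponentIn (u ⁻¹' C) k ∧ p.2 ∈ D} with hB
  have hBc : IsClosed B := by
    refine IsClosed.inter ?_ (IsClosed.inter ?_ ?_)
    · exact (isClosed_comp hΦ).preimage (f := fun p : K × (K × K) => (p.1, p.2.1))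
        (continuous_fst.prodMk (continuous_fst.comp continuous_snd))
    · exact hΛ.preimage (f := fun p : K × (K × K) => p.2.2) (continuous_snd.comp continuous_snd)
    · exact hD.closed.preimage (f := fun p : K × (K × K) => p.2) continuous_snd
  have hBc' : IsClosed (Prod.fst '' B) := (hBc.isCompact.image continuous_fst).isClosed
  have hkB : k ∉ Prod.fst '' B := by
    rintro ⟨⟨k1, a, b⟩, ⟨⟨h1, h2⟩, h3, h4⟩, rfl⟩
    exact hD.cons_comp hu hC.1.isClosed hC1 hk a h2 b h3 h4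
  refine ⟨U ∩ (Prod.fst '' B)ᶜ, inter_mem hU (hBc'.isOpen_compl.mem_nhds hkB), ?_⟩
  rintro k' ⟨hk'U, hk'B⟩ hk'
  obtain ⟨y, ⟨a, ha, rfl⟩, b, hb, hab⟩ := hU' k' hk'U hk'
  refine (rel_of_comp hu hD hC.1.isClosed hC1 hk' hk ha hb hab.symm ?_).symm
  intro h
  exact hk'B ⟨(k', (a, b)), ⟨⟨hk', ha⟩, hb, h⟩, rfl⟩

theorem finite_partition [ConnectedSpace K] (hY : Good Y)
    (u : K → Y) (hu : Continuous u) {D : Set (K × K)} (hD : DisData u D) {C : Set Y} (hC : Ctm C)
    (hC1 : ∃ k0, u k0 ∉ C) :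
    ∃ (n : ℕ) (E : Fin n → Set K), (∀ i, IsClosed (E i)) ∧
      (∀ i j, i ≠ j → Disjoint (E i) (E j)) ∧ (⋃ i, E i) = u ⁻¹' C ∧ (∀ i, Cons D (E i)) ∧
      (∀ i j, i ≠ j → ∀ a ∈ E i, ∀ b ∈ E j, u a = u b → (a, b) ∈ D) := by
  classical
  have hΦ : IsClosed (u ⁻¹' C) := hC.1.isClosed.preimage hu
  have hrefl : ∀ k, u k ∈ C → Rel u D C k k := by
    intro k hk
    exact rel_of_comp hu hD hC.1.isClosed hC1 hk hk (mem_connectedComponentIn hk)
      (mem_connectedComponentIn hk) rfl (hD.refl k)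
  have hmem : ∀ a b, Rel u D C a b → u b ∈ C := by
    rintro a b ⟨S, -, hS, -, -, -, hb⟩
    exact hS hb
  set cl : K → Set K := fun k => {k' | Rel u D C k k'} with hcl
  have hcl_eq : ∀ a b, Rel u D C a b → cl a = cl b := by
    intro a b hab
    ext c
    exact ⟨fun h => Rel.trans hD hab.symm h, fun h => Rel.trans hD hab h⟩
  have hclosed : ∀ k, IsClosed (cl k) := by
    intro k
    apply isClosed_of_closure_subset
    intro k1 hk1
    have hk1C : u k1 ∈ C := by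
      have : closure (cl k) ⊆ u ⁻¹' C := closure_minimal (fun x hx => hmem _ _ hx) hΦ
      exact this hk1
    obtain ⟨U, hU, hU'⟩ := rel_open hY hu hD hC hC1 hk1C
    rw [mem_closure_iff_nhds] at hk1
    obtain ⟨x, hxU, hx⟩ := hk1 U hU
    exact Rel.trans hD hx (hU' x hxU (hmem _ _ hx)).symm
  choose! U hU hU' using fun (k : K) (hk : u k ∈ C) => rel_open hY hu hD hC hC1 hk
  obtain ⟨t, htΦ, htc⟩ := hΦ.isCompact.elim_nhds_subcover U (fun k hk => hU k hk)
  obtain ⟨n, E, hEcl, hEinj, hEcov⟩ : ∃ (n : ℕ) (E : Fin n → Set K), (∀ i, ∃ k, E i = cl k) ∧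
      (∀ i j, E i = E j → i = j) ∧ (∀ k ∈ t, ∃ i, E i = cl k) := by
    set T : Finset (Set K) := t.image cl with hT
    refine ⟨T.card, fun i => (T.equivFin.symm i).1, ?_, ?_, ?_⟩
    · intro i
      obtain ⟨k, -, hk⟩ := Finset.mem_image.1 (T.equivFin.symm i).2
      exact ⟨k, hk.symm⟩
    · intro i j hij
      exact T.equivFin.symm.injective (Subtype.ext hij)
    · intro k hk
      exact ⟨T.equivFin ⟨cl k, Finset.mem_image_of_mem _ hk⟩, by simp⟩
  refine ⟨n, E, ?_, ?_, ?_, ?_, ?_⟩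
  · intro i
    obtain ⟨k, hk⟩ := hEcl i
    rw [hk]
    exact hclosed k
  · intro i j hij
    obtain ⟨k, hk⟩ := hEcl i
    obtain ⟨k', hk'⟩ := hEcl j
    rw [disjoint_left]
    intro a ha hb
    apply hij
    apply hEinj
    rw [hk] at ha ⊢
    rw [hk'] at hb ⊢
    rw [hcl_eq k a ha, hcl_eq k' a hb]
  · ext x
    rw [mem_iUnion]
    constructor
    · rintro ⟨i, hi⟩
      obtain ⟨k, hk⟩ := hEcl i
      rw [hk] at hi
      exact hmem _ _ hi
    · intro hx
      obtain ⟨k, hkt, hkx⟩ := mem_iUnion₂.1 (htc hx)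
      obtain ⟨i, hi⟩ := hEcov k hkt
      refine ⟨i, ?_⟩
      rw [hi]
      exact hU' k (htΦ k hkt) x hkx hx
  · intro i
    obtain ⟨k, hk⟩ := hEcl i
    rw [hk]
    intro a ha b hb
    obtain ⟨S, -, -, -, hS, haS, hbS⟩ := Rel.trans hD (Rel.symm ha) hb
    exact hS a haS b hbS
  · intro i j hij a ha b hb hab
    by_contra hD'
    obtain ⟨k, hk⟩ := hEcl i
    obtain ⟨k', hk'⟩ := hEcl j
    rw [hk] at ha
    rw [hk'] at hb
    have ha' := hmem _ _ ha
    have hb' := hmem _ _ hb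
    have : Rel u D C a b := rel_of_comp hu hD hC.1.isClosed hC1 ha' hb'
      (mem_connectedComponentIn ha') (mem_connectedComponentIn hb') hab hD'
    apply hij
    apply hEinj
    rw [hk, hk', hcl_eq k a ha, hcl_eq k' b hb, hcl_eq a b this]

end

end Pool.Agent.H963CF.L648
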