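import Pool.Agent.H963CF.L648.Final

set_option autoImplicit false

namespace Pool.Agent.H963CF.L648

open Set Topology Filter
open Pool.Agent.H963CF.L739.CT (Ctm HasLog SpanZero)
open Pool.Agent.H963CF.L739.CG (Good)

/-- arc-like compacta have span zero -/
theorem spanZero_of_arcLike {X : Type*} [MetricSpace X] [CompactSpace X]
    (h : ∀ ε : ℝ, 0 < ε → ∃ g : X → ℝ, Continuous g ∧ ∀ t : ℝ, Metric.diam (g ⁻¹' {t}) < ε) :
    SpanZero X := by
  intro Z hZc hZ he
  by_contra hcon
  push Not at hcon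
  -- minimal distance
  obtain ⟨p0, hp0, hmin⟩ := hZc.exists_isMinOn hZ.nonempty
    (f := fun p : X × X => dist p.1 p.2) (by fun_prop)
  have hδ : 0 < dist p0.1 p0.2 := dist_pos.2 (hcon p0 hp0)
  obtain ⟨g, hg, hgd⟩ := h _ hδ
  have hne : ∀ p ∈ Z, g p.1 ≠ g p.2 := by
    intro p hp hgp
    have h1 : dist p.1 p.2 ≤ Metric.diam (g ⁻¹' {g p.2}) :=
      Metric.dist_le_diam_of_mem (isCompact_univ.isBounded.subset (subset_univ _)) hgp rfl
    have h2 : dist p0.1 p0.2 ≤ dist p.1 p.2 := hmin hp
    linarith [hgd (g p.2)]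
  have hφ : Continuous (fun p : X × X => g p.1 - g p.2) := by fun_prop
  have himg : IsPreconnected ((fun p : X × X => g p.1 - g p.2) '' Z) :=
    hZ.isPreconnected.image _ hφ.continuousOn
  have hsign : (∀ p ∈ Z, g p.2 < g p.1) ∨ (∀ p ∈ Z, g p.1 < g p.2) := by
    by_contra hc
    push Not at hc
    obtain ⟨⟨p, hp, hp'⟩, ⟨q, hq, hq'⟩⟩ := hc
    have h0 : (0 : ℝ) ∈ (fun p : X × X => g p.1 - g p.2) '' Z := by
      apply himg.ordConnected.out ⟨p, hp, rfl⟩ ⟨q, hq, rfl⟩
      constructor
      · simp only; linarith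
      · simp only; linarith
    obtain ⟨r, hr, hr'⟩ := h0
    exact hne r hr (by simp only at hr'; linarith)
  rcases hsign with hs | hs
  · obtain ⟨p, hp, hmax⟩ := hZc.exists_isMaxOn hZ.nonempty
      (f := fun p : X × X => g p.1) (by fun_prop)
    have : p.1 ∈ Prod.snd '' Z := by rw [← he]; exact ⟨p, hp, rfl⟩
    obtain ⟨q, hq, hqp⟩ := this
    have h1 := hs q hq
    have h2 : g q.1 ≤ g p.1 := hmax hq
    rw [hqp] at h1
    linarith
  · obtain ⟨p, hp, hmax⟩ := hZc.exists_isMaxOn hZ.nonempty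
      (f := fun p : X × X => g p.2) (by fun_prop)
    have : p.2 ∈ Prod.fst '' Z := by rw [he]; exact ⟨p, hp, rfl⟩
    obtain ⟨q, hq, hqp⟩ := this
    have h1 := hs q hq
    have h2 : g q.2 ≤ g p.2 := hmax hq
    rw [hqp] at h1
    linarith

/-- products of confluent maps are confluent when the ranges are Good and Rigid -/
theorem prod_confl {X X' Y Y' : Type} [TopologicalSpace X] [CompactSpace X] [T2Space X]
    [TopologicalSpace X'] [CompactSpace X'] [T2Space X']
    [TopologicalSpace Y] [CompactSpace Y] [T2Space Y]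
    [TopologicalSpace Y'] [CompactSpace Y'] [T2Space Y']
    (hYg : Good Y) (hYr : Rigid Y) (hYg' : Good Y') (hYr' : Rigid Y')
    (f : X → Y) (hf : Continuous f) (hfc : Confl f)
    (g : X' → Y') (hg : Continuous g) (hgc : Confl g) : Confl (Prod.map f g) := by
  rintro L hL ⟨x1, x2⟩ hx
  have hx' : (f x1, g x2) ∈ L := hx
  set L1 : Set Y := Prod.fst '' L with hL1
  set L2 : Set Y' := Prod.snd '' L with hL2
  have hL1c : Ctm L1 := hL.image continuous_fst.continuousOn
  have hL2c : Ctm L2 := hL.image continuous_snd.continuousOn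
  have hx1 : x1 ∈ f ⁻¹' L1 := ⟨_, hx', rfl⟩
  have hx2 : x2 ∈ g ⁻¹' L2 := ⟨_, hx', rfl⟩
  set A1 : Set X := connectedComponentIn (f ⁻¹' L1) x1 with hA1
  set A2 : Set X' := connectedComponentIn (g ⁻¹' L2) x2 with hA2
  have hA1c : Ctm A1 :=
    Pool.Agent.H963CF.L739.CT.ctm_component (hL1c.1.isClosed.preimage hf).isCompact hx1
  have hA2c : Ctm A2 :=
    Pool.Agent.H963CF.L739.CT.ctm_component (hL2c.1.isClosed.preimage hg).isCompact hx2
  have : CompactSpace L := isCompact_iff_compactSpace.1 hL.1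
  have : ConnectedSpace L := isConnected_iff_connectedSpace.1 hL.2
  have : CompactSpace L1 := isCompact_iff_compactSpace.1 hL1c.1
  have : CompactSpace L2 := isCompact_iff_compactSpace.1 hL2c.1
  have : CompactSpace A1 := isCompact_iff_compactSpace.1 hA1c.1
  have : ConnectedSpace A1 := isConnected_iff_connectedSpace.1 hA1c.2
  have : CompactSpace A2 := isCompact_iff_compactSpace.1 hA2c.1
  have : ConnectedSpace A2 := isConnected_iff_connectedSpace.1 hA2c.2
  have hsub1 := connectedComponentIn_subset (f ⁻¹' L1) x1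
  have hsub2 := connectedComponentIn_subset (g ⁻¹' L2) x2
  have c1 : Continuous (resMap (f := f) hsub1) :=
    Continuous.subtype_mk (hf.comp continuous_subtype_val) _
  have c2 : Continuous (resMap (f := g) hsub2) :=
    Continuous.subtype_mk (hg.comp continuous_subtype_val) _
  have s1 : Function.Surjective (resMap (f := f) hsub1) := by
    rintro ⟨z, hz⟩
    have : z ∈ f '' A1 := by rw [hA1, hfc _ hL1c x1 hx1]; exact hz
    obtain ⟨a, ha, rfl⟩ := this
    exact ⟨⟨a, ha⟩, rfl⟩
  have s2 : Function.Surjective (resMap (f := g) hsub2) := by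
    rintro ⟨z, hz⟩
    have : z ∈ g '' A2 := by rw [hA2, hgc _ hL2c x2 hx2]; exact hz
    obtain ⟨a, ha, rfl⟩ := this
    exact ⟨⟨a, ha⟩, rfl⟩
  have k1 := Confl.restrict hf hfc hL1c hx1
  have k2 := Confl.restrict hg hgc hL2c hx2
  -- first pullback
  set u : L → L1 := fun l => ⟨(l : Y × Y').1, l, l.2, rfl⟩ with hu
  have uc : Continuous u := Continuous.subtype_mk (continuous_fst.comp continuous_subtype_val) _
  have us : Function.Surjective u := by
    rintro ⟨_, l, hl, rfl⟩
    exact ⟨⟨l, hl⟩, rfl⟩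
  have hW1c := pullback_connected (Good.subtype hYg hL1c.1.isClosed) (Rigid.subtype hYr L1)
    (resMap (f := f) hsub1) c1 s1 k1 u uc us
  set W1 : Set (L × A1) := {p | u p.1 = resMap (f := f) hsub1 p.2} with hW1
  have hW1cl : IsClosed W1 := isClosed_eq (uc.comp continuous_fst) (c1.comp continuous_snd)
  have : CompactSpace W1 := isCompact_iff_compactSpace.1 hW1cl.isCompact
  have : ConnectedSpace W1 := isConnected_iff_connectedSpace.1 hW1c
  -- second pullback
  set v : W1 → L2 := fun w => ⟨((w : L × A1).1 : Y × Y').2, (w : L × A1).1, (w : L × A1).1.2, rfl⟩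
    with hv
  have vc : Continuous v := Continuous.subtype_mk
    (continuous_snd.comp (continuous_subtype_val.comp (continuous_fst.comp
      continuous_subtype_val))) _
  have vs : Function.Surjective v := by
    rintro ⟨_, l, hl, rfl⟩
    obtain ⟨a, ha⟩ := s1 (u ⟨l, hl⟩)
    exact ⟨⟨(⟨l, hl⟩, a), ha.symm⟩, rfl⟩
  have hW2c := pullback_connected (Good.subtype hYg' hL2c.1.isClosed) (Rigid.subtype hYr' L2)
    (resMap (f := g) hsub2) c2 s2 k2 v vc vs
  set W2 : Set (W1 × A2) := {p | v p.1 = resMap (f := g) hsub2 p.2} with hW2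
  set m : W1 × A2 → X × X' := fun p => (((p.1 : L × A1).2 : X), (p.2 : X')) with hm
  have hmc : Continuous m :=
    (continuous_subtype_val.comp (continuous_snd.comp
      (continuous_subtype_val.comp continuous_fst))).prodMk
      (continuous_subtype_val.comp continuous_snd)
  -- the value
  have hval : ∀ q ∈ W2, Prod.map f g (m q) = (((q.1 : L × A1).1 : L) : Y × Y') := by
    intro q hq
    have e1 : u (q.1 : L × A1).1 = resMap (f := f) hsub1 (q.1 : L × A1).2 := q.1.2
    have e2 : v q.1 = resMap (f := g) hsub2 q.2 := hq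
    have e1' := congrArg Subtype.val e1
    have e2' := congrArg Subtype.val e2
    exact Prod.ext e1'.symm e2'.symm
  have hT : m '' W2 ⊆ connectedComponentIn (Prod.map f g ⁻¹' L) (x1, x2) := by
    apply IsPreconnected.subset_connectedComponentIn
    · exact hW2c.isPreconnected.image _ hmc.continuousOn
    · refine ⟨(⟨(⟨(f x1, g x2), hx'⟩, ⟨x1, mem_connectedComponentIn hx1⟩), rfl⟩,
        ⟨x2, mem_connectedComponentIn hx2⟩), rfl, rfl⟩
    · rintro _ ⟨q, hq, rfl⟩
      rw [mem_preimage, hval q hq]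
      exact ((q.1 : L × A1).1).2
  apply Subset.antisymm
  · rintro _ ⟨q, hq, rfl⟩
    exact (connectedComponentIn_subset (Prod.map f g ⁻¹' L) (x1, x2) hq :
      q ∈ Prod.map f g ⁻¹' L)
  · intro l hl
    obtain ⟨a, ha⟩ := s1 (u ⟨l, hl⟩)
    obtain ⟨b, hb⟩ := s2 (v ⟨(⟨l, hl⟩, a), ha.symm⟩)
    have hq : ((⟨(⟨l, hl⟩, a), ha.symm⟩, b) : W1 × A2) ∈ W2 := hb.symm
    exact ⟨m (⟨(⟨l, hl⟩, a), ha.symm⟩, b), hT ⟨_, hq, rfl⟩, hval _ hq⟩

/-- the product of confluent surjections of compacta of span zero is confluent -/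
theorem prod_confl_of_spanZero {X X' Y Y' : Type} [TopologicalSpace X] [CompactSpace X] [T2Space X]
    [TopologicalSpace X'] [CompactSpace X'] [T2Space X']
    [TopologicalSpace Y] [CompactSpace Y] [T2Space Y]
    [TopologicalSpace Y'] [CompactSpace Y'] [T2Space Y']
    (hX : SpanZero X) (hX' : SpanZero X')
    (f : X → Y) (hf : Continuous f) (hfs : Function.Surjective f) (hfc : Confl f)
    (g : X' → Y') (hg : Continuous g) (hgs : Function.Surjective g) (hgc : Confl g) :
    Confl (Prod.map f g) := by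
  have h1 := good_of_confl (good_of_spanZero hX) f hf hfs hfc
  have h2 := good_of_confl (good_of_spanZero hX') g hg hgs hgc
  exact prod_confl h1
    (rigid_of_confl X Y (rigid_of_spanZero X hX) (good_of_spanZero hX) h1 f hf hfs hfc) h2
    (rigid_of_confl X' Y' (rigid_of_spanZero X' hX') (good_of_spanZero hX') h2 g hg hgs hgc)
    f hf hfc g hg hgc

end Pool.Agent.H963CF.L648
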