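import Pool.Agent.H963CF.L648.T1

set_option autoImplicit false

namespace Pool.Agent.H963CF.L648

open Set Topology Filter
open Pool.Agent.H963CF.L739.CT (Ctm HasLog SpanZero ctm_union ctm_component clopen_nhd_component cutwire bump ctm_iInter_directed const_of_int circle_exp_eq_one circle_exp_int log_unique)
open Pool.Agent.H963CF.L739.CG (Good)

/-- minimal sets without a logarithm -/
theorem exists_minimal_nolog {Y : Type*} [TopologicalSpace Y] [CompactSpace Y] [T2Space Y]
    {S : Set Y} (hS : IsClosed S) (hSc : IsConnected S) {g : Y → Circle} (hg : ContinuousOn g S)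
    (hno : ¬ ∃ l : Y → ℝ, ContinuousOn l S ∧ ∀ x ∈ S, Circle.exp (l x) = g x) :
    ∃ Q ⊆ S, Ctm Q ∧ (¬ ∃ l : Y → ℝ, ContinuousOn l Q ∧ ∀ x ∈ Q, Circle.exp (l x) = g x) ∧
      ∀ R ⊆ Q, Ctm R → R ≠ Q → ∃ l : Y → ℝ, ContinuousOn l R ∧ ∀ x ∈ R, Circle.exp (l x) = g x := by
  obtain ⟨m, hm, hmin⟩ := zorn_superset_nonempty
    {Q : Set Y | Q ⊆ S ∧ Ctm Q ∧
      ¬ ∃ l : Y → ℝ, ContinuousOn l Q ∧ ∀ x ∈ Q, Circle.exp (l x) = g x} (by
      intro c hc hchain hne
      have : Nonempty c := hne.to_subtype
      have hdir : Directed (· ⊇ ·) (fun i : c => (i : Set Y)) := by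
        intro i j
        rcases hchain.total i.2 j.2 with h | h
        · exact ⟨i, Subset.rfl, h⟩
        · exact ⟨j, h, Subset.rfl⟩
      have hctm : Ctm (⋂ i : c, (i : Set Y)) := ctm_iInter_directed hdir (fun i => (hc i.2).2.1)
      refine ⟨⋂ i : c, (i : Set Y), ⟨?_, hctm, ?_⟩, ?_⟩
      · obtain ⟨i⟩ : Nonempty c := inferInstance
        exact (iInter_subset (fun i : c => (i : Set Y)) i).trans (hc i.2).1
      · rintro ⟨l, hl, hl'⟩
        -- Tietze
        obtain ⟨L, hL⟩ := ContinuousMap.exists_restrict_eq hctm.1.isClosed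
          (⟨fun x => l x, continuousOn_iff_continuous_domRestrict.1 hl⟩ :
            C((⋂ i : c, (i : Set Y) : Set Y), ℝ))
        have hL' : ∀ x ∈ (⋂ i : c, (i : Set Y)), L x = l x := by
          intro x hx
          have := congrArg (fun F => F ⟨x, hx⟩) hL
          exact this
        set k : Y → Circle := fun x => g x / Circle.exp (L x) with hk
        have hkc : ContinuousOn k S :=
          hg.div' (Circle.exp.continuous.comp L.continuous).continuousOn
        have hBc : IsClosed (S ∩ (fun x => ((k x : Circle) : ℂ).re) ⁻¹' Iic 0) :=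
          ((Pool.Agent.H963CF.L739.CT.continuous_re).comp_continuousOn hkc).preimage_isClosed_of_isClosed
            hS isClosed_Iic
        obtain ⟨i, hi⟩ := exists_subset_nhds_of_isCompact hdir (fun i => (hc i.2).2.1.1)
          (U := (S ∩ (fun x => ((k x : Circle) : ℂ).re) ⁻¹' Iic 0)ᶜ) (by
            intro x hx
            apply hBc.isOpen_compl.mem_nhds
            rintro ⟨-, hx2⟩
            have h1 : k x = 1 := by
              simp only [hk]
              rw [hL' x hx, hl' x hx]
              simp
            rw [mem_preimage, h1] at hx2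
            simp only [Circle.coe_one, Complex.one_re, mem_Iic] at hx2
            linarith)
        apply (hc i.2).2.2
        refine ⟨fun x => L x + Complex.arg (k x : ℂ), ?_, ?_⟩
        · apply L.continuous.continuousOn.add
          intro x hx
          have hxS : x ∈ S := (hc i.2).1 hx
          have hre : 0 < ((k x : Circle) : ℂ).re := by
            by_contra h
            exact hi hx ⟨hxS, not_lt.1 h⟩
          exact (Pool.Agent.H963CF.L739.CT.continuousAt_arg hre).comp_continuousWithinAt
            ((hkc x hxS).mono (hc i.2).1)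
        · intro x _
          rw [Circle.exp_add, Pool.Agent.H963CF.L739.CT.exp_arg]
          simp only [hk]
          rw [mul_div_cancel]
      · intro s hs
        exact iInter_subset (fun i : c => (i : Set Y)) ⟨s, hs⟩) S
      ⟨Subset.rfl, ⟨hS.isCompact, hSc⟩, hno⟩
  refine ⟨m, hmin.prop.1, hmin.prop.2.1, hmin.prop.2.2, ?_⟩
  intro R hR hRc hRne
  by_contra hcon
  exact hRne (Subset.antisymm hR (hmin.2 ⟨hR.trans hmin.prop.1, hRc, hcon⟩ hR))

/-- TARGET -/
theorem good_of_confl {X Y : Type*} [TopologicalSpace X] [CompactSpace X] [T2Space X]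
    [TopologicalSpace Y] [CompactSpace Y] [T2Space Y] (hX : Good X) (f : X → Y)
    (hf : Continuous f) (hfs : Function.Surjective f) (hfc : Confl f) : Good Y := by
  classical
  constructor
  · intro S hS hSc g hg
    by_contra hno
    obtain ⟨Q, hQS, hQ, hQno, hQmin⟩ := exists_minimal_nolog hS hSc hg hno
    obtain ⟨y0, hy0⟩ := hQ.2.nonempty
    obtain ⟨x0, hx0y⟩ := hfs y0
    have hx0 : x0 ∈ f ⁻¹' Q := by rw [mem_preimage, hx0y]; exact hy0
    set A := connectedComponentIn (f ⁻¹' Q) x0 with hA
    have hAc : Ctm A := ctm_component (hQ.1.isClosed.preimage hf).isCompact hx0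
    have hAQ : A ⊆ f ⁻¹' Q := connectedComponentIn_subset (f ⁻¹' Q) x0
    have hfA : f '' A = Q := hfc Q hQ x0 hx0
    have : CompactSpace A := isCompact_iff_compactSpace.1 hAc.1
    have : CompactSpace Q := isCompact_iff_compactSpace.1 hQ.1
    have : Nonempty A := hAc.2.nonempty.to_subtype
    have : ConnectedSpace Q := isConnected_iff_connectedSpace.1 hQ.2
    have hres : Confl (resMap (f := f) hAQ) := Confl.restrict hf hfc hQ hx0
    have hcont : Continuous (resMap (f := f) hAQ) :=
      Continuous.subtype_mk (hf.comp continuous_subtype_val) _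
    have hsurj : Function.Surjective (resMap (f := f) hAQ) := by
      rintro ⟨y, hy⟩
      rw [← hfA] at hy
      obtain ⟨a, ha, rfl⟩ := hy
      exact ⟨⟨a, ha⟩, rfl⟩
    have hφ : Continuous (fun q : Q => g q) :=
      continuousOn_iff_continuous_domRestrict.1 (hg.mono hQS)
    have hM : HasLog (fun m : A => (fun q : Q => g q) (resMap (f := f) hAQ m)) := by
      have hgf : ContinuousOn (fun x => g (f x)) A :=
        (hg.mono hQS).comp hf.continuousOn (fun x hx => hAQ hx)
      obtain ⟨l, hl, hl'⟩ := hX.logOn hAc.1.isClosed hAc.2 hgf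
      exact ⟨fun m => l m, continuousOn_iff_continuous_domRestrict.1 hl, fun m => hl' m m.2⟩
    have hlog : HasLog (fun q : Q => g q) := by
      refine log_transfer (resMap (f := f) hAQ) hcont hsurj (fun q : Q => g q) hφ hM ?_ ?_
      · intro R hR hRne
        have hR' := ctm_image_val hR
        have hR'Q : ((↑) '' R : Set Y) ⊆ Q := by rintro _ ⟨y, -, rfl⟩; exact y.2
        obtain ⟨l, hl, hl'⟩ := hQmin _ hR'Q hR' (by
          intro h
          apply hRne
          rw [eq_univ_iff_forall]
          intro q
          have : (q : Y) ∈ ((↑) '' R : Set Y) := by rw [h]; exact q.2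
          obtain ⟨q', hq', hqq⟩ := this
          rwa [← Subtype.ext hqq])
        refine ⟨fun q => l q, ?_, fun q hq => hl' q ⟨q, hq, rfl⟩⟩
        exact hl.comp continuous_subtype_val.continuousOn (fun q hq => ⟨q, hq, rfl⟩)
      · intro R hR _ m hm
        rw [hres R hR m hm]
    obtain ⟨l, hl, hl'⟩ := hlog
    apply hQno
    refine ⟨fun y => if h : y ∈ Q then l ⟨y, h⟩ else 0, ?_, ?_⟩
    · rw [continuousOn_iff_continuous_domRestrict]
      convert hl using 1
      funext y
      simp [Set.domRestrict]
    · intro y hy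
      simp only [dif_pos hy]
      exact hl' ⟨y, hy⟩
  · intro A B C hA hB hC h
    obtain ⟨y, ⟨hyA, hyB⟩, hyC⟩ := h
    obtain ⟨x, rfl⟩ := hfs y
    have cA : Ctm (connectedComponentIn (f ⁻¹' A) x) :=
      ctm_component (hA.1.isClosed.preimage hf).isCompact hyA
    have cB : Ctm (connectedComponentIn (f ⁻¹' B) x) :=
      ctm_component (hB.1.isClosed.preimage hf).isCompact hyB
    have cC : Ctm (connectedComponentIn (f ⁻¹' C) x) :=
      ctm_component (hC.1.isClosed.preimage hf).isCompact hyC
    have hmain := hX.atri cA cB cC ⟨x, ⟨mem_connectedComponentIn hyA, mem_connectedComponentIn hyB⟩,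
      mem_connectedComponentIn hyC⟩
    rw [← hfc A hA x hyA, ← hfc B hB x hyB, ← hfc C hC x hyC, ← image_union, ← image_union,
      ← image_union]
    rcases hmain with h | h | h
    · left; exact image_mono h
    · right; left; exact image_mono h
    · right; right; exact image_mono h

end Pool.Agent.H963CF.L648
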